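import Mathlib

set_option autoImplicit false

/-!
# A bound for all `N` from the bound for the sums
-/

namespace Pool.Agent.H36.KS

private lemma harm (a : ℕ) (ha : 1 ≤ a) (d : ℕ) :
    Real.log ((a : ℝ) + d) - Real.log a ≤ ∑ j ∈ Finset.range d, 1 / ((a : ℝ) + j) := by
  have ha0 : (1 : ℝ) ≤ a := by exact_mod_cast ha
  induction d with
  | zero => simp
  | succ d ih =>
    rw [Finset.sum_range_succ]
    have h0 : (0 : ℝ) < a + d := by positivity
    have h1 : Real.log ((a : ℝ) + (d + 1 : ℕ)) - Real.log ((a : ℝ) + d) ≤ 1 / ((a : ℝ) + d) := by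
      rw [← Real.log_div (by positivity) h0.ne']
      have h2 : ((a : ℝ) + (d + 1 : ℕ)) / (a + d) = 1 + 1 / (a + d) := by
        push_cast
        field_simp
        ring
      rw [h2]
      have h3 := Real.log_le_sub_one_of_pos (show (0 : ℝ) < 1 + 1 / (a + d) by positivity)
      linarith
    linarith

private lemma term {W x t : ℝ} (hW : 0 ≤ W) (hx : 0 ≤ x) (ht : 0 < t) (htW : W / 8 ≤ t)
    (h : W ≤ x + 2 * Real.sqrt (t * (x + 1))) : W ^ 2 / 16 * (1 / t) ≤ x + 1 := by
  rw [mul_one_div, div_le_iff₀ ht]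
  rcases le_total (W / 2) x with h1 | h1
  · have h2 : W / 2 * (W / 8) ≤ (x + 1) * t :=
      mul_le_mul (by linarith) htW (by positivity) (by linarith)
    nlinarith
  · have h2 : W / 4 ≤ Real.sqrt (t * (x + 1)) := by linarith
    have h3 := pow_le_pow_left₀ (by positivity) h2 2
    rw [Real.sq_sqrt (by positivity)] at h3
    nlinarith

theorem all_bound (m : ℕ) (hm : 1 ≤ m) :
    ∃ C : ℝ, 0 < C ∧ ∀ D : ℕ → ℝ, (∀ n, m ≤ n → 0 ≤ D n) →
      (∀ M : ℕ, m ≤ M → ∑ n ∈ Finset.Ico m M, D n ≤ 2 * (m : ℝ) ^ 2 + M) →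
      (∀ i N : ℕ, m ≤ i → i ≤ N → D N ≤ D i + 2 * Real.sqrt (((N : ℝ) - i) * (D i + 1))) →
      ∀ N : ℕ, m ≤ N → 2 ≤ N → D N + 1 ≤ C * Real.sqrt (N / Real.log N) := by
  have hm1 : (1 : ℝ) ≤ m := by exact_mod_cast hm
  obtain ⟨A, hA⟩ : ∃ A : ℝ, A = 2 * (m : ℝ) ^ 2 + m + 2 := ⟨_, rfl⟩
  have hA5 : 5 ≤ A := by rw [hA]; nlinarith
  have hlog : 0 ≤ Real.log (m * A) := Real.log_nonneg (by nlinarith)
  obtain ⟨C', hC'⟩ : ∃ C' : ℝ, C' = 128 * (m : ℝ) ^ 2 + 18 * A ^ 2 * Real.log (m * A) := ⟨_, rfl⟩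
  have hC'0 : 0 ≤ C' := by rw [hC']; positivity
  refine ⟨Real.sqrt (2 * C' + 2), Real.sqrt_pos.2 (by linarith), ?_⟩
  intro D hD hS hL N hmN hN2
  have hN1 : (1 : ℝ) ≤ N := by exact_mod_cast (by omega : 1 ≤ N)
  have hmNr : (m : ℝ) ≤ N := by exact_mod_cast hmN
  have hlogN : 0 < Real.log N := Real.log_pos (by exact_mod_cast (by omega : 1 < N))
  obtain ⟨W, hW⟩ : ∃ W : ℝ, W = D N := ⟨_, rfl⟩
  have hW0 : 0 ≤ W := by rw [hW]; exact hD N hmN
  rw [← hW]
  -- a priori bound
  have hDm : D m + 1 ≤ A := by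
    have h1 := hS (m + 1) (by omega)
    rw [Nat.Ico_succ_singleton, Finset.sum_singleton] at h1
    push_cast at h1
    rw [hA]
    linarith
  have hDm0 := hD m le_rfl
  have hsN : 1 ≤ Real.sqrt N := Real.one_le_sqrt.2 hN1
  have hsN2 : Real.sqrt N ^ 2 = N := Real.sq_sqrt (by linarith)
  have hWA : W ≤ 3 * A * Real.sqrt N := by
    have h1 := hL m N le_rfl hmN
    rw [← hW] at h1
    have h2 : Real.sqrt (((N : ℝ) - m) * (D m + 1)) ≤ A * Real.sqrt N := by
      apply Real.sqrt_le_iff.2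
      refine ⟨by positivity, ?_⟩
      rw [mul_pow, hsN2]
      have h3 : ((N : ℝ) - m) * (D m + 1) ≤ N * A :=
        mul_le_mul (by linarith) hDm (by linarith) (by linarith)
      have h5 : A ≤ A ^ 2 := by nlinarith
      have h6 := mul_le_mul_of_nonneg_left h5 (show (0 : ℝ) ≤ N by linarith)
      linarith
    nlinarith
  have hWA2 : W ^ 2 ≤ 9 * A ^ 2 * N := by
    have h1 := pow_le_pow_left₀ hW0 hWA 2
    rw [mul_pow, hsN2, mul_pow] at h1
    linarith
  -- the number `a`
  obtain ⟨a, ha⟩ : ∃ a : ℕ, a = ⌊W / 8⌋₊ + 1 := ⟨_, rfl⟩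
  have ha1 : 1 ≤ a := by omega
  have haW : W / 8 ≤ a := by
    have := (Nat.lt_floor_add_one (W / 8)).le
    rw [ha]
    exact_mod_cast this
  have haW2 : (a : ℝ) ≤ W / 8 + 1 := by
    have := Nat.floor_le (show 0 ≤ W / 8 by positivity)
    rw [ha]
    push_cast
    linarith
  have ha0 : (0 : ℝ) < a := by exact_mod_cast ha1
  have haA : (a : ℝ) ≤ A * Real.sqrt N := by nlinarith
  have hloga : Real.log a ≤ Real.log A + 1 / 2 * Real.log N := by
    have h1 := Real.log_le_log ha0 haA
    rw [Real.log_mul (by linarith) (by linarith), Real.log_sqrt (by linarith)] at h1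
    linarith
  -- the main inequality
  have hmain : W ^ 2 * (Real.log ((N : ℝ) + 1 - m) - Real.log a) ≤ 64 * (m : ℝ) ^ 2 * N := by
    have hpos : (0 : ℝ) < (N : ℝ) + 1 - m := by linarith
    have hNm : (m : ℝ) ^ 2 + N ≤ 2 * ((m : ℝ) ^ 2 * N) := by
      have h1 : (1 : ℝ) ≤ (m : ℝ) ^ 2 := by nlinarith
      nlinarith
    rcases le_or_gt a (N + 1 - m) with hle | hgt
    · obtain ⟨d, hd⟩ : ∃ d : ℕ, a + d = N + 1 - m := ⟨N + 1 - m - a, by omega⟩
      have hdr : (a : ℝ) + d = (N : ℝ) + 1 - m := by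
        have : ((a + d + m : ℕ) : ℝ) = ((N + 1 : ℕ) : ℝ) := by congr 1; omega
        push_cast at this
        linarith
      have h1 := harm a ha1 d
      rw [hdr] at h1
      have h2 : W ^ 2 / 16 * ∑ j ∈ Finset.range d, 1 / ((a : ℝ) + j) ≤
          ∑ j ∈ Finset.range d, (D (N - a - j) + 1) := by
        rw [Finset.mul_sum]
        apply Finset.sum_le_sum
        intro j hj
        rw [Finset.mem_range] at hj
        have h3 := hL (N - a - j) N (by omega) (by omega)
        have h4 : (N : ℝ) - ((N - a - j : ℕ) : ℝ) = a + j := by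
          have : ((N - a - j + a + j : ℕ) : ℝ) = (N : ℝ) := by congr 1; omega
          push_cast at this
          linarith
        rw [h4, ← hW] at h3
        exact term hW0 (hD _ (by omega)) (by positivity)
          (by have : (0 : ℝ) ≤ j := Nat.cast_nonneg j; linarith) h3
      have h5 : ∑ j ∈ Finset.range d, (D (N - a - j) + 1) ≤ ∑ i ∈ Finset.Ico m N, (D i + 1) := by
        have h6 : ∑ i ∈ (Finset.range d).image (fun j => N - a - j), (D i + 1) =
            ∑ j ∈ Finset.range d, (D (N - a - j) + 1) := by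
          apply Finset.sum_image
          intro x hx y hy hxy
          rw [Finset.mem_coe, Finset.mem_range] at hx hy
          simp only at hxy
          omega
        rw [← h6]
        apply Finset.sum_le_sum_of_subset_of_nonneg
        · intro i hi
          rw [Finset.mem_image] at hi
          obtain ⟨j, hj, rfl⟩ := hi
          rw [Finset.mem_range] at hj
          rw [Finset.mem_Ico]
          omega
        · intro i hi _
          rw [Finset.mem_Ico] at hi
          have := hD i hi.1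
          linarith
      have h7 : ∑ i ∈ Finset.Ico m N, (D i + 1) ≤ 2 * (m : ℝ) ^ 2 + 2 * N := by
        rw [Finset.sum_add_distrib, Finset.sum_const, Nat.card_Ico, nsmul_eq_mul, mul_one,
          Nat.cast_sub hmN]
        have := hS N hmN
        linarith
      have h8 : W ^ 2 / 16 * (Real.log ((N : ℝ) + 1 - m) - Real.log a) ≤
          W ^ 2 / 16 * ∑ j ∈ Finset.range d, 1 / ((a : ℝ) + j) :=
        mul_le_mul_of_nonneg_left h1 (by positivity)
      nlinarith
    · have h1 : (N : ℝ) + 1 - m ≤ a := by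
        have : ((N + 1 : ℕ) : ℝ) ≤ ((a + m : ℕ) : ℝ) := by exact_mod_cast (by omega : N + 1 ≤ a + m)
        push_cast at this
        linarith
      have h2 : Real.log ((N : ℝ) + 1 - m) - Real.log a ≤ 0 := by
        have := Real.log_le_log hpos h1
        linarith
      have h3 : W ^ 2 * (Real.log ((N : ℝ) + 1 - m) - Real.log a) ≤ 0 :=
        mul_nonpos_of_nonneg_of_nonpos (by positivity) h2
      have h4 : (0 : ℝ) ≤ 64 * (m : ℝ) ^ 2 * N := by positivity
      linarith
  have hlogm : Real.log N - Real.log m ≤ Real.log ((N : ℝ) + 1 - m) := by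
    rw [← Real.log_div (by linarith) (by linarith)]
    apply Real.log_le_log (by positivity)
    rw [div_le_iff₀ (by linarith)]
    nlinarith
  have hlogmA : Real.log (m * A) = Real.log m + Real.log A := Real.log_mul (by linarith) (by linarith)
  have hfin : W ^ 2 * Real.log N ≤ C' * N := by
    have h1 : W ^ 2 * (1 / 2 * Real.log N - Real.log (m * A)) ≤
        W ^ 2 * (Real.log ((N : ℝ) + 1 - m) - Real.log a) :=
      mul_le_mul_of_nonneg_left (by linarith) (by positivity)
    have h2 : W ^ 2 * Real.log (m * A) ≤ 9 * A ^ 2 * N * Real.log (m * A) :=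
      mul_le_mul_of_nonneg_right hWA2 hlog
    rw [hC']
    nlinarith
  have hfin2 : (W + 1) ^ 2 * Real.log N ≤ (2 * C' + 2) * N := by
    have h1 : Real.log N ≤ N := by
      have := Real.log_le_sub_one_of_pos (show (0 : ℝ) < N by linarith)
      linarith
    have h2 : (W + 1) ^ 2 ≤ 2 * W ^ 2 + 2 := by nlinarith [sq_nonneg (W - 1)]
    have h3 := mul_le_mul_of_nonneg_right h2 hlogN.le
    linarith
  rw [← Real.sqrt_mul (by linarith)]
  apply Real.le_sqrt_of_sq_le
  rw [mul_div_assoc', le_div_iff₀ hlogN]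
  exact hfin2

end Pool.Agent.H36.KS
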