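import Mathlib
import Pool.Agent.H47.KZ.Energy
import Pool.Agent.H47.KZ.Link

set_option autoImplicit false

/-!
# [H36 KS Basic] product integrals over the unit cube, the kernel on smooth functions of one variable
-/

namespace Pool.Agent.H36.KS

open Finset MeasureTheory
open Pool.Agent.H47.KZ (Kp hh)

/-- the closed unit cube -/
abbrev Q (d : ℕ) : Set (Fin d → ℝ) := Set.Icc 0 1

theorem mem_Q {d : ℕ} {y : Fin d → ℝ} (hy : y ∈ Q d) (r : Fin d) : 0 ≤ y r ∧ y r ≤ 1 :=
  ⟨hy.1 r, hy.2 r⟩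

theorem restr (d : ℕ) : (volume : Measure (Fin d → ℝ)).restrict (Q d) =
    Measure.pi (fun _ : Fin d => (volume : Measure ℝ).restrict (Set.Icc 0 1)) := by
  have h : Q d = Set.univ.pi (fun _ : Fin d => Set.Icc (0 : ℝ) 1) := by
    rw [Q, ← Set.pi_univ_Icc]
    rfl
  rw [h, volume_pi, Measure.restrict_pi_pi]

theorem int_prod {d : ℕ} (φ : Fin d → ℝ → ℝ) :
    ∫ y in Q d, ∏ r, φ r (y r) = ∏ r, ∫ t in (0 : ℝ)..1, φ r t := by
  rw [restr, integral_fintype_prod_eq_prod]
  refine prod_congr rfl fun r _ => ?_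
  rw [intervalIntegral.integral_of_le zero_le_one, integral_Icc_eq_integral_Ioc]

theorem vol_Q (d : ℕ) : (volume : Measure (Fin d → ℝ)) (Q d) = 1 := by
  rw [Q, Real.volume_Icc_pi]
  simp

/-- the kernel applied to a second derivative -/
theorem ker_deriv (φ : ℝ → ℝ) (hφ : ContDiff ℝ 2 φ) (x : ℝ) (hx0 : 0 ≤ x) (hx1 : x ≤ 1) :
    ∫ t in (0 : ℝ)..1, (1 - max x t) * (-(deriv (deriv φ) t)) =
      φ x - φ 1 + (1 - x) * deriv φ 0 := by
  have hφ1 : Differentiable ℝ φ := hφ.differentiable (by norm_num)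
  have hd : ContDiff ℝ 1 (deriv φ) := by
    have h := (contDiff_succ_iff_deriv (n := 1) (f := φ)).1 (by rw [one_add_one_eq_two]; exact hφ)
    exact h.2.2
  have hφ2 : Differentiable ℝ (deriv φ) := hd.differentiable (by norm_num)
  have hc2 : Continuous (deriv (deriv φ)) := hd.continuous_deriv (by norm_num)
  have hcont : Continuous (fun t => (1 - max x t) * (-(deriv (deriv φ) t))) := by fun_prop
  rw [← intervalIntegral.integral_add_adjacent_intervals (hcont.intervalIntegrable 0 x)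
    (hcont.intervalIntegrable x 1)]
  have h1 : ∫ t in (0 : ℝ)..x, (1 - max x t) * (-(deriv (deriv φ) t)) =
      -(1 - x) * deriv φ x - -(1 - x) * deriv φ 0 := by
    have e : ∫ t in (0 : ℝ)..x, (1 - max x t) * (-(deriv (deriv φ) t)) =
        ∫ t in (0 : ℝ)..x, -(1 - x) * deriv (deriv φ) t := by
      apply intervalIntegral.integral_congr
      intro t ht
      rw [Set.uIcc_of_le hx0] at ht
      simp only
      rw [max_eq_left ht.2]
      ring
    rw [e]
    refine intervalIntegral.integral_eq_sub_of_hasDerivAt (f := fun t => -(1 - x) * deriv φ t) ?_ ?_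
    · intro t _
      exact ((hφ2 t).hasDerivAt).const_mul _
    · exact (continuous_const.mul hc2).intervalIntegrable _ _
  have h2 : ∫ t in x..1, (1 - max x t) * (-(deriv (deriv φ) t)) =
      (-(1 - 1) * deriv φ 1 - φ 1) - (-(1 - x) * deriv φ x - φ x) := by
    have e : ∫ t in x..1, (1 - max x t) * (-(deriv (deriv φ) t)) =
        ∫ t in x..1, (-(1 - t)) * deriv (deriv φ) t := by
      apply intervalIntegral.integral_congr
      intro t ht
      rw [Set.uIcc_of_le hx1] at ht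
      simp only
      rw [max_eq_right ht.1]
      ring
    rw [e]
    refine intervalIntegral.integral_eq_sub_of_hasDerivAt
      (f := fun t => -(1 - t) * deriv φ t - φ t) ?_ ?_
    · intro t _
      have a1 : HasDerivAt (fun t : ℝ => -(1 - t)) 1 t := by
        have e : (fun t : ℝ => -(1 - t)) = fun t => t - 1 := by
          funext u
          ring
        rw [e]
        exact (hasDerivAt_id' t).sub_const 1
      have a2 := (a1.mul (hφ2 t).hasDerivAt).sub (hφ1 t).hasDerivAt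
      have e3 : 1 * deriv φ t + -(1 - t) * deriv (deriv φ) t - deriv φ t =
          (-(1 - t)) * deriv (deriv φ) t := by ring
      rw [e3] at a2
      exact a2
    · exact (by fun_prop : Continuous fun t => (-(1 - t)) * deriv (deriv φ) t).intervalIntegrable _ _
  rw [h1, h2]
  ring

theorem int_one_sub_max (x : ℝ) (hx0 : 0 ≤ x) (hx1 : x ≤ 1) :
    ∫ t in (0 : ℝ)..1, (1 - max x t) = (1 - x ^ 2) / 2 := by
  have h := ker_deriv (fun t => -(t ^ 2 / 2)) (by fun_prop) x hx0 hx1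
  have d1 : deriv (fun t : ℝ => -(t ^ 2 / 2)) = fun t => -t := by
    funext t
    have : HasDerivAt (fun t : ℝ => -(t ^ 2 / 2)) (-t) t := by
      have e : (fun t : ℝ => -(t ^ 2 / 2)) = fun t => -1 / 2 * t ^ 2 := by
        funext u
        ring
      rw [e]
      have h3 := (hasDerivAt_pow 2 t).const_mul (-1 / 2 : ℝ)
      have e2 : -1 / 2 * (((2 : ℕ) : ℝ) * t ^ (2 - 1)) = -t := by
        norm_num
        ring
      rw [e2] at h3
      exact h3
    exact this.deriv
  have d2 : deriv (fun t : ℝ => -t) = fun _ => -1 := by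
    funext t
    exact (hasDerivAt_neg t).deriv
  rw [d1, d2] at h
  simp only [neg_neg, mul_one, neg_zero, mul_zero, add_zero] at h
  rw [h]
  ring

theorem int_Kp {d : ℕ} {x : Fin d → ℝ} (hx : ∀ r, 0 ≤ x r ∧ x r ≤ 1) :
    ∫ y in Q d, Kp x y = hh x := by
  unfold Kp hh
  rw [int_prod (fun r t => 1 - max (x r) t)]
  exact prod_congr rfl fun r _ => int_one_sub_max _ (hx r).1 (hx r).2

theorem Kp_comm {d : ℕ} (x y : Fin d → ℝ) : Kp x y = Kp y x := by
  unfold Kp
  exact prod_congr rfl fun r _ => by rw [max_comm]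

theorem int_Kp' {d : ℕ} {y : Fin d → ℝ} (hy : ∀ r, 0 ≤ y r ∧ y r ≤ 1) :
    ∫ x in Q d, Kp x y = hh y := by
  rw [← int_Kp hy]
  exact integral_congr_ae (Filter.Eventually.of_forall fun x => Kp_comm x y)

theorem Kp_cont (d : ℕ) : Continuous (fun q : (Fin d → ℝ) × (Fin d → ℝ) => Kp q.1 q.2) := by
  unfold Kp
  fun_prop

theorem hh_cont (d : ℕ) : Continuous (fun y : Fin d → ℝ => hh y) := by
  unfold hh
  fun_prop

theorem Kp_bd {d : ℕ} {x y : Fin d → ℝ} (hx : x ∈ Q d) (hy : y ∈ Q d) : 0 ≤ Kp x y ∧ Kp x y ≤ 1 := by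
  unfold Kp
  have h : ∀ r, 0 ≤ 1 - max (x r) (y r) ∧ 1 - max (x r) (y r) ≤ 1 := by
    intro r
    have h1 := mem_Q hx r
    have h2 := mem_Q hy r
    have h3 := max_le h1.2 h2.2
    have h4 := le_max_left (x r) (y r)
    constructor <;> linarith [h1.1]
  exact ⟨prod_nonneg fun r _ => (h r).1, prod_le_one (fun r _ => (h r).1) fun r _ => (h r).2⟩

theorem hh_bd {k : ℕ} {y : Fin (k + 1) → ℝ} (hy : y ∈ Q (k + 1)) : 0 ≤ hh y ∧ 2 * hh y ≤ 1 := by
  unfold hh
  have h : ∀ r, 0 ≤ (1 - y r ^ 2) / 2 ∧ (1 - y r ^ 2) / 2 ≤ 1 / 2 := by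
    intro r
    have h1 := mem_Q hy r
    constructor <;> nlinarith [h1.1, h1.2, sq_nonneg (y r)]
  have hp : 0 ≤ ∏ r, (1 - y r ^ 2) / 2 := prod_nonneg fun r _ => (h r).1
  refine ⟨hp, ?_⟩
  rw [Fin.prod_univ_succ]
  have h2 : ∏ i : Fin k, (1 - y i.succ ^ 2) / 2 ≤ 1 :=
    prod_le_one (fun r _ => (h _).1) fun r _ => (h _).2.trans (by norm_num)
  have h3 : 0 ≤ ∏ i : Fin k, (1 - y i.succ ^ 2) / 2 := prod_nonneg fun r _ => (h _).1
  nlinarith [(h 0).1, (h 0).2]

end Pool.Agent.H36.KS
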