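import Pool.Agent.H36.KS.Basic

set_option autoImplicit false

/-!
# [H36 KS Bound] the integration error at step `n` is at most `(mean F_n - min F_n + 1)/2` times `sup |g|`
-/

namespace Pool.Agent.H36.KS

open Finset MeasureTheory
open Pool.Agent.H47.KZ (Kp hh kap F Fb mm Gr IsKritzinger)

/-- the greedy functional on the closed cube -/
noncomputable def Fn {d : ℕ} (z : ℕ → Fin d → ℝ) (n : ℕ) (y : Fin d → ℝ) : ℝ :=
  2 * ∑ j ∈ range n, Kp (z j) y + ∏ r, (1 - y r) - 2 * (n + 1) * hh y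

/-- first coordinates -/
def P {k : ℕ} (z : ℕ → Fin (k + 1) → ℝ) : ℕ → ℝ := fun j => z j 0

/-- the other coordinates -/
def X {k : ℕ} (z : ℕ → Fin (k + 1) → ℝ) : ℕ → Fin k → ℝ := fun j r => z j (Fin.succAbove 0 r)

theorem hh_split {k : ℕ} (y : Fin (k + 1) → ℝ) :
    hh y = (1 - y 0 ^ 2) / 2 * hh (fun r => y (Fin.succAbove 0 r)) := by
  unfold hh
  rw [Fin.prod_univ_succAbove _ 0]

theorem F_eq {k : ℕ} (z : ℕ → Fin (k + 1) → ℝ) (n : ℕ) (y : Fin (k + 1) → ℝ) (hy : 0 ≤ y 0) :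
    F (P z) (X z) n (y 0) (fun r => y (Fin.succAbove 0 r)) = Fn z n y := by
  unfold F Fn P X
  have h1 : ∀ j ∈ range n, kap (y 0) (z j 0) *
      Kp (fun r => z j (Fin.succAbove 0 r)) (fun r => y (Fin.succAbove 0 r)) = Kp (z j) y := by
    intro j _
    unfold kap Kp
    rw [Fin.prod_univ_succAbove (fun r => 1 - max (z j r) (y r)) 0, abs_of_nonneg hy, max_comm]
  rw [sum_congr rfl h1, hh_split y, Fin.prod_univ_succAbove (fun r => 1 - y r) 0, abs_of_nonneg hy]
  ring

theorem gr {k m : ℕ} {z : ℕ → Fin (k + 1) → ℝ} (h : IsKritzinger (k + 1) m z) :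
    Gr m (P z) (X z) := Pool.Agent.H47.KZ.link h 0

theorem greedy {k m : ℕ} {z : ℕ → Fin (k + 1) → ℝ} (h : IsKritzinger (k + 1) m z) (n : ℕ)
    (hn : m ≤ n) (y : Fin (k + 1) → ℝ) (hy : y ∈ Q (k + 1)) : Fn z n (z n) ≤ Fn z n y := by
  have h1 := (gr h).gr n hn (y 0) (by linarith [(mem_Q hy 0).1]) (mem_Q hy 0).2
    (fun r => y (Fin.succAbove 0 r)) (fun r => mem_Q hy _)
  rw [F_eq z n y (mem_Q hy 0).1] at h1
  have h2 := F_eq z n (z n) (h.mem n 0).1
  unfold P X at h1 h2
  rw [h2] at h1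
  exact h1

theorem mem_cube_Q {d m : ℕ} {z : ℕ → Fin d → ℝ} (h : IsKritzinger d m z) (n : ℕ) : z n ∈ Q d :=
  ⟨fun r => (h.mem n r).1, fun r => (h.mem n r).2.le⟩

theorem cont_int {d : ℕ} {f : (Fin d → ℝ) → ℝ} (hf : Continuous f) :
    IntegrableOn f (Q d) := hf.continuousOn.integrableOn_compact isCompact_Icc

theorem Kp_cont_right {d : ℕ} (x : Fin d → ℝ) : Continuous (fun y => Kp x y) :=
  (Kp_cont d).comp (Continuous.prodMk continuous_const continuous_id)

theorem Fn_cont {d : ℕ} (z : ℕ → Fin d → ℝ) (n : ℕ) : Continuous (Fn z n) := by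
  unfold Fn
  have h1 := hh_cont d
  have h2 : ∀ j, Continuous (fun y => Kp (z j) y) := fun j => Kp_cont_right (z j)
  fun_prop

theorem int_hh (d : ℕ) : ∫ y in Q d, hh y = (1 / 3) ^ d := by
  unfold hh
  rw [int_prod (fun _ t => (1 - t ^ 2) / 2)]
  have : ∫ t in (0 : ℝ)..1, (1 - t ^ 2) / 2 = 1 / 3 := by
    rw [intervalIntegral.integral_div, intervalIntegral.integral_sub (by simp) (by simp)]
    simp
    norm_num
  rw [this, prod_const, card_univ, Fintype.card_fin]

theorem int_Fn {k m : ℕ} {z : ℕ → Fin (k + 1) → ℝ} (h : IsKritzinger (k + 1) m z) (n : ℕ) :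
    ∫ y in Q (k + 1), Fn z n y = 2 * ∑ j ∈ range n, hh (z j) + (1 / 2) ^ (k + 1) -
      2 * ((n : ℝ) + 1) * (1 / 3) ^ (k + 1) := by
  have i1 : IntegrableOn (fun y => 2 * ∑ j ∈ range n, Kp (z j) y) (Q (k + 1)) :=
    cont_int (by
      have h2 : ∀ j, Continuous (fun y => Kp (z j) y) := fun j => Kp_cont_right (z j)
      fun_prop)
  have i2 : IntegrableOn (fun y : Fin (k + 1) → ℝ => ∏ r, (1 - y r)) (Q (k + 1)) :=
    cont_int (by fun_prop)
  have i3 : IntegrableOn (fun y : Fin (k + 1) → ℝ => 2 * ((n : ℝ) + 1) * hh y) (Q (k + 1)) :=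
    cont_int (continuous_const.mul (hh_cont _))
  have e2 : ∫ y in Q (k + 1), ∏ r, (1 - y r) = (1 / 2) ^ (k + 1) := by
    rw [int_prod (fun _ t => 1 - t)]
    have : ∫ t in (0 : ℝ)..1, (1 - t) = 1 / 2 := by
      have := int_one_sub_max 0 le_rfl zero_le_one
      have e : ∫ t in (0 : ℝ)..1, (1 - max 0 t) = ∫ t in (0 : ℝ)..1, (1 - t) := by
        apply intervalIntegral.integral_congr
        intro t ht
        rw [Set.uIcc_of_le zero_le_one] at ht
        simp only
        rw [max_eq_right ht.1]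
      rw [← e, this]
      norm_num
    rw [this, prod_const, card_univ, Fintype.card_fin]
  have e1 : ∫ y in Q (k + 1), 2 * ∑ j ∈ range n, Kp (z j) y = 2 * ∑ j ∈ range n, hh (z j) := by
    rw [integral_const_mul, integral_finsetSum _ fun j _ => cont_int (Kp_cont_right (z j))]
    congr 1
    exact sum_congr rfl fun j _ => int_Kp fun r => ⟨(h.mem j r).1, (h.mem j r).2.le⟩
  have i12 : IntegrableOn (fun y => 2 * ∑ j ∈ range n, Kp (z j) y + ∏ r, (1 - y r))
      (Q (k + 1)) := i1.add i2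
  unfold Fn
  rw [integral_sub i12 i3, integral_add i1 i2, e1, e2, integral_const_mul, int_hh]

theorem Fb_eq {k m : ℕ} {z : ℕ → Fin (k + 1) → ℝ} (h : IsKritzinger (k + 1) m z) (n : ℕ) :
    Fb (P z) (X z) n = ∫ y in Q (k + 1), Fn z n y := by
  have e4 : ∑ j ∈ range n, hh (z j) =
      ∑ j ∈ range n, (1 - z j 0 ^ 2) / 2 * hh (fun r => z j (Fin.succAbove 0 r)) :=
    sum_congr rfl fun j _ => hh_split (z j)
  rw [int_Fn h n, e4]
  rfl

/-- the drop `mean F_n - min F_n` -/
noncomputable def drop {k : ℕ} (z : ℕ → Fin (k + 1) → ℝ) (n : ℕ) : ℝ := mm (P z) (X z) n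

theorem drop_eq {k m : ℕ} {z : ℕ → Fin (k + 1) → ℝ} (h : IsKritzinger (k + 1) m z) (n : ℕ) :
    drop z n = ∫ y in Q (k + 1), (Fn z n y - Fn z n (z n)) := by
  have h1 : F (P z) (X z) n (P z n) (X z n) = Fn z n (z n) := F_eq z n (z n) (h.mem n 0).1
  have hc : IntegrableOn (fun _ : Fin (k + 1) → ℝ => Fn z n (z n)) (Q (k + 1)) :=
    cont_int continuous_const
  rw [integral_sub (cont_int (Fn_cont z n)) hc, ← Fb_eq h n]
  unfold drop mm
  rw [h1]
  simp [measureReal_def, vol_Q]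

theorem mul_int {d : ℕ} {f g : (Fin d → ℝ) → ℝ} {B : ℝ} (hf : Continuous f) (hg : Measurable g)
    (hB : ∀ y ∈ Q d, |g y| ≤ B) : IntegrableOn (fun y => f y * g y) (Q d) := by
  refine Integrable.mul_bdd (c := B) (cont_int hf) hg.aestronglyMeasurable ?_
  exact ae_restrict_of_forall_mem measurableSet_Icc hB

theorem swap {d : ℕ} {g : (Fin d → ℝ) → ℝ} {B : ℝ} (hg : Measurable g)
    (hB : ∀ y ∈ Q d, |g y| ≤ B) :
    ∫ x in Q d, ∫ y in Q d, Kp x y * g y = ∫ y in Q d, hh y * g y := by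
  have hB0 : 0 ≤ B := (abs_nonneg _).trans (hB 0 ⟨le_rfl, fun _ => zero_le_one⟩)
  have hfin : IsFiniteMeasure ((volume : Measure (Fin d → ℝ)).restrict (Q d)) :=
    ⟨by rw [Measure.restrict_apply_univ, vol_Q]; exact ENNReal.one_lt_top⟩
  have hi : Integrable (Function.uncurry fun x y : Fin d → ℝ => Kp x y * g y)
      (((volume : Measure (Fin d → ℝ)).restrict (Q d)).prod
        ((volume : Measure (Fin d → ℝ)).restrict (Q d))) := by
    refine Integrable.mono' (integrable_const B) ?_ ?_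
    · have h1 : Measurable (fun q : (Fin d → ℝ) × (Fin d → ℝ) => Kp q.1 q.2 * g q.2) :=
        (Kp_cont d).measurable.mul (hg.comp measurable_snd)
      exact h1.aestronglyMeasurable
    · rw [Measure.prod_restrict]
      refine ae_restrict_of_forall_mem (measurableSet_Icc.prod measurableSet_Icc) ?_
      rintro ⟨x, y⟩ ⟨hx, hy⟩
      have h1 := Kp_bd hx hy
      simp only [Function.uncurry_apply_pair]
      rw [Real.norm_eq_abs, abs_mul, abs_of_nonneg h1.1]
      have h2 := hB y hy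
      nlinarith [abs_nonneg (g y), h1.1, h1.2]
  rw [integral_integral_swap hi]
  refine setIntegral_congr_fun measurableSet_Icc fun y hy => ?_
  rw [integral_mul_const, int_Kp' fun r => mem_Q hy r]

theorem bound {k m : ℕ} {z : ℕ → Fin (k + 1) → ℝ} (h : IsKritzinger (k + 1) m z) (n : ℕ)
    (hn : m ≤ n) (g : (Fin (k + 1) → ℝ) → ℝ) (B : ℝ) (hg : Measurable g)
    (hB : ∀ y ∈ Q (k + 1), |g y| ≤ B) (h0 : ∫ y in Q (k + 1), g y = 0) :
    |∑ i ∈ range n, (∫ y in Q (k + 1), Kp (z i) y * g y) -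
      n * ∫ x in Q (k + 1), ∫ y in Q (k + 1), Kp x y * g y| ≤ (drop z n + 1) / 2 * B := by
  have hB0 : 0 ≤ B := (abs_nonneg _).trans (hB 0 ⟨le_rfl, fun _ => zero_le_one⟩)
  rw [swap hg hB]
  set c := Fn z n (z n) with hc
  have iK : ∀ i, IntegrableOn (fun y => Kp (z i) y * g y) (Q (k + 1)) := fun i =>
    mul_int (Kp_cont_right (z i)) hg hB
  have iH : IntegrableOn (fun y => hh y * g y) (Q (k + 1)) := mul_int (hh_cont _) hg hB
  have iF : IntegrableOn (fun y => (Fn z n y - c) * g y) (Q (k + 1)) :=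
    mul_int ((Fn_cont z n).sub continuous_const) hg hB
  have iR : IntegrableOn (fun y => (2 * hh y - ∏ r, (1 - y r)) * g y) (Q (k + 1)) :=
    mul_int ((continuous_const.mul (hh_cont _)).sub (by fun_prop)) hg hB
  have ig : IntegrableOn (fun y => c * g y) (Q (k + 1)) := mul_int continuous_const hg hB
  have key : 2 * (∑ i ∈ range n, (∫ y in Q (k + 1), Kp (z i) y * g y) -
      n * ∫ y in Q (k + 1), hh y * g y) =
      (∫ y in Q (k + 1), (Fn z n y - c) * g y) +
      ∫ y in Q (k + 1), (2 * hh y - ∏ r, (1 - y r)) * g y := by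
    have hcz : ∫ y in Q (k + 1), c * g y = 0 := by rw [integral_const_mul, h0, mul_zero]
    have e1 : ∑ i ∈ range n, (∫ y in Q (k + 1), Kp (z i) y * g y) =
        ∫ y in Q (k + 1), ∑ i ∈ range n, Kp (z i) y * g y :=
      (integral_finsetSum _ fun i _ => iK i).symm
    have iS : IntegrableOn (fun y => ∑ i ∈ range n, Kp (z i) y * g y) (Q (k + 1)) :=
      integrable_finsetSum _ fun i _ => iK i
    have e2 : (∫ y in Q (k + 1), (Fn z n y - c) * g y) +
        ∫ y in Q (k + 1), (2 * hh y - ∏ r, (1 - y r)) * g y =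
        ∫ y in Q (k + 1), (2 * (∑ i ∈ range n, Kp (z i) y * g y) - 2 * n * (hh y * g y) -
          c * g y) := by
      rw [← integral_add iF iR]
      refine integral_congr_ae (Filter.Eventually.of_forall fun y => ?_)
      simp only [Fn]
      rw [← sum_mul]
      ring
    rw [e2, integral_sub _ ig, hcz, sub_zero, integral_sub _ (iH.const_mul _), integral_const_mul,
      integral_const_mul, e1]
    · ring
    · exact iS.const_mul 2
    · exact (iS.const_mul 2).sub (iH.const_mul _)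
  have b1 : |∫ y in Q (k + 1), (Fn z n y - c) * g y| ≤ drop z n * B := by
    rw [drop_eq h n, ← integral_mul_const]
    refine (abs_integral_le_integral_abs).trans ?_
    refine setIntegral_mono_on iF.abs ((cont_int ((Fn_cont z n).sub continuous_const)).mul_const B)
      measurableSet_Icc fun y hy => ?_
    have h1 : 0 ≤ Fn z n y - c := by linarith [greedy h n hn y hy]
    rw [abs_mul, abs_of_nonneg h1]
    exact mul_le_mul_of_nonneg_left (hB y hy) h1
  have b2 : |∫ y in Q (k + 1), (2 * hh y - ∏ r, (1 - y r)) * g y| ≤ B := by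
    have h1 := norm_setIntegral_le_of_norm_le_const (μ := volume) (s := Q (k + 1)) (C := B)
      (f := fun y => (2 * hh y - ∏ r, (1 - y r)) * g y) (by rw [vol_Q]; exact ENNReal.one_lt_top)
      (fun y hy => by
        have a1 := hh_bd hy
        have a2 : 0 ≤ ∏ r, (1 - y r) := prod_nonneg fun r _ => by linarith [(mem_Q hy r).2]
        have a3 : ∏ r, (1 - y r) ≤ 1 := prod_le_one (fun r _ => by linarith [(mem_Q hy r).2])
          fun r _ => by linarith [(mem_Q hy r).1]
        have a4 : |2 * hh y - ∏ r, (1 - y r)| ≤ 1 := abs_le.2 ⟨by linarith, by linarith⟩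
        rw [Real.norm_eq_abs, abs_mul]
        calc |2 * hh y - ∏ r, (1 - y r)| * |g y| ≤ 1 * B :=
              mul_le_mul a4 (hB y hy) (abs_nonneg _) zero_le_one
          _ = B := one_mul B)
    rw [Real.norm_eq_abs, measureReal_def, vol_Q] at h1
    simpa using h1
  have h3 : |2 * (∑ i ∈ range n, (∫ y in Q (k + 1), Kp (z i) y * g y) -
      n * ∫ y in Q (k + 1), hh y * g y)| ≤ drop z n * B + B := by
    rw [key]
    exact (abs_add_le _ _).trans (add_le_add b1 b2)
  rw [abs_mul, abs_of_pos (by norm_num : (0 : ℝ) < 2)] at h3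
  linarith

theorem drop_nonneg {k m : ℕ} {z : ℕ → Fin (k + 1) → ℝ} (h : IsKritzinger (k + 1) m z) (n : ℕ)
    (hn : m ≤ n) : 0 ≤ drop z n := Pool.Agent.H47.KZ.mm_nonneg (gr h) n hn

theorem sum_drop {k m : ℕ} {z : ℕ → Fin (k + 1) → ℝ} (h : IsKritzinger (k + 1) m z) (M : ℕ)
    (hM : m ≤ M) : ∑ n ∈ Ico m M, drop z n ≤ 2 * m ^ 2 + M :=
  Pool.Agent.H47.KZ.sum_mm_le (gr h) M hM

end Pool.Agent.H36.KS
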