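import Pool.Agent.H36.KS.Bound

set_option autoImplicit false

/-!
# [H36 KS Disc] averages of the local discrepancy
-/

namespace Pool.Agent.H36.KS

open Finset MeasureTheory
open Pool.Agent.H47.KZ (Kp hh IsKritzinger)

/-- the half-open box `[0,q)` -/
def box {d : ℕ} (q : Fin d → ℝ) : Set (Fin d → ℝ) := {y | ∀ r, 0 ≤ y r ∧ y r < q r}

/-- local discrepancy of the first `N` points (counting) -/
noncomputable def locDisc {d : ℕ} (z : ℕ → Fin d → ℝ) (N : ℕ) (q : Fin d → ℝ) : ℝ :=
  (((range N).filter (fun i => ∀ r, 0 ≤ z i r ∧ z i r < q r)).card : ℝ) - N * ∏ r, q r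

noncomputable def ind {d : ℕ} (x q : Fin d → ℝ) : ℝ := ∏ r, (if x r < q r then (1 : ℝ) else 0)

theorem ind_eq {d : ℕ} (x q : Fin d → ℝ) : ind x q = if ∀ r, x r < q r then 1 else 0 := by
  unfold ind
  rw [prod_ite_zero]
  simp

theorem ind_abs {d : ℕ} (x q : Fin d → ℝ) : |ind x q| ≤ 1 := by
  rw [ind_eq]
  split_ifs <;> simp

theorem ind_meas (d : ℕ) : Measurable (fun p : (Fin d → ℝ) × (Fin d → ℝ) => ind p.1 p.2) := by
  unfold ind
  refine Finset.measurable_prod _ fun r _ => ?_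
  refine Measurable.ite (measurableSet_lt ?_ ?_) measurable_const measurable_const
  · exact (measurable_pi_apply r).comp measurable_fst
  · exact (measurable_pi_apply r).comp measurable_snd

theorem int_ind (u : ℝ → ℝ) (c : ℝ) (hc0 : 0 ≤ c) (hc1 : c ≤ 1) :
    ∫ t in (0 : ℝ)..1, u t * (if c < t then 1 else 0) = ∫ t in c..1, u t := by
  rw [intervalIntegral.integral_of_le zero_le_one, intervalIntegral.integral_of_le hc1]
  have e : ∫ t in Set.Ioc (0 : ℝ) 1, u t * (if c < t then 1 else 0) =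
      ∫ t in Set.Ioc (0 : ℝ) 1, (Set.Ioc c 1).indicator u t := by
    refine setIntegral_congr_fun measurableSet_Ioc fun t ht => ?_
    simp only [Set.indicator_apply, Set.mem_Ioc]
    by_cases h : c < t
    · rw [if_pos h, if_pos ⟨h, ht.2⟩, mul_one]
    · rw [if_neg h, if_neg fun h' => h h'.1, mul_zero]
  rw [e, setIntegral_indicator measurableSet_Ioc]
  congr 2
  ext t
  simp only [Set.mem_inter_iff, Set.mem_Ioc]
  constructor
  · exact fun h => h.2
  · exact fun h => ⟨⟨hc0.trans_lt h.1, h.2⟩, h⟩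

theorem int_ind_ind {d : ℕ} {x y : Fin d → ℝ} (hx : x ∈ Q d) (hy : y ∈ Q d) :
    ∫ q in Q d, ind x q * ind y q = Kp x y := by
  have e : ∀ q : Fin d → ℝ, ind x q * ind y q =
      ∏ r, ((1 : ℝ) * (if max (x r) (y r) < q r then 1 else 0)) := by
    intro q
    unfold ind
    rw [← prod_mul_distrib]
    refine prod_congr rfl fun r _ => ?_
    by_cases h1 : x r < q r <;> by_cases h2 : y r < q r <;> simp [h1, h2]
  rw [integral_congr_ae (Filter.Eventually.of_forall e),
    int_prod (fun r t => (1 : ℝ) * (if max (x r) (y r) < t then 1 else 0))]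
  unfold Kp
  refine prod_congr rfl fun r _ => ?_
  rw [int_ind (fun _ => 1) _ (le_max_of_le_left (mem_Q hx r).1)
    (max_le (mem_Q hx r).2 (mem_Q hy r).2)]
  simp

theorem int_vol_ind {d : ℕ} {y : Fin d → ℝ} (hy : y ∈ Q d) :
    ∫ q in Q d, (∏ r, q r) * ind y q = hh y := by
  have e : ∀ q : Fin d → ℝ, (∏ r, q r) * ind y q =
      ∏ r, (q r * (if y r < q r then 1 else 0)) := by
    intro q
    unfold ind
    rw [← prod_mul_distrib]
  rw [integral_congr_ae (Filter.Eventually.of_forall e),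
    int_prod (fun r t => t * (if y r < t then 1 else 0))]
  unfold hh
  refine prod_congr rfl fun r _ => ?_
  rw [int_ind (fun t => t) _ (mem_Q hy r).1 (mem_Q hy r).2, integral_id]
  ring

theorem prod_integrable {d : ℕ} {a g : (Fin d → ℝ) → ℝ} {B : ℝ} (ha : Measurable a)
    (ha1 : ∀ q ∈ Q d, |a q| ≤ 1) (hg : Measurable g) (hB : ∀ y ∈ Q d, |g y| ≤ B) :
    Integrable (Function.uncurry fun q y : Fin d → ℝ => a q * (ind y q * g y))
      (((volume : Measure (Fin d → ℝ)).restrict (Q d)).prod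
        ((volume : Measure (Fin d → ℝ)).restrict (Q d))) := by
  have hB0 : 0 ≤ B := (abs_nonneg _).trans (hB 0 ⟨le_rfl, fun _ => zero_le_one⟩)
  have hfin : IsFiniteMeasure ((volume : Measure (Fin d → ℝ)).restrict (Q d)) :=
    ⟨by rw [Measure.restrict_apply_univ, vol_Q]; exact ENNReal.one_lt_top⟩
  refine Integrable.mono' (integrable_const B) ?_ ?_
  · have h1 : Measurable (fun p : (Fin d → ℝ) × (Fin d → ℝ) =>
        a p.1 * (ind p.2 p.1 * g p.2)) :=
      (ha.comp measurable_fst).mul (((ind_meas d).comp measurable_swap).mul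
        (hg.comp measurable_snd))
    exact h1.aestronglyMeasurable
  · rw [Measure.prod_restrict]
    refine ae_restrict_of_forall_mem (measurableSet_Icc.prod measurableSet_Icc) ?_
    rintro ⟨q, y⟩ ⟨hq, hy⟩
    simp only [Function.uncurry_apply_pair]
    rw [Real.norm_eq_abs, abs_mul, abs_mul]
    calc |a q| * (|ind y q| * |g y|) ≤ 1 * (1 * B) :=
          mul_le_mul (ha1 q hq) (mul_le_mul (ind_abs _ _) (hB y hy) (abs_nonneg _) zero_le_one)
            (by positivity) zero_le_one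
      _ = B := by ring

theorem swap_gen {d : ℕ} {a g : (Fin d → ℝ) → ℝ} {B : ℝ} (ha : Measurable a)
    (ha1 : ∀ q ∈ Q d, |a q| ≤ 1) (hg : Measurable g) (hB : ∀ y ∈ Q d, |g y| ≤ B)
    (b : (Fin d → ℝ) → ℝ) (hb : ∀ y ∈ Q d, ∫ q in Q d, a q * ind y q = b y) :
    ∫ q in Q d, a q * ∫ y in Q d, ind y q * g y = ∫ y in Q d, b y * g y := by
  have h1 := integral_integral_swap (prod_integrable ha ha1 hg hB)
  have e1 : ∫ q in Q d, a q * ∫ y in Q d, ind y q * g y =
      ∫ q in Q d, ∫ y in Q d, a q * (ind y q * g y) :=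
    integral_congr_ae (Filter.Eventually.of_forall fun q => (integral_const_mul _ _).symm)
  rw [e1, h1]
  refine setIntegral_congr_fun measurableSet_Icc fun y hy => ?_
  have e2 : ∀ q : Fin d → ℝ, a q * (ind y q * g y) = a q * ind y q * g y := fun q => by ring
  simp only [e2]
  rw [integral_mul_const, hb y hy]

theorem int_gen {d : ℕ} {a g : (Fin d → ℝ) → ℝ} {B : ℝ} (ha : Measurable a)
    (ha1 : ∀ q ∈ Q d, |a q| ≤ 1) (hg : Measurable g) (hB : ∀ y ∈ Q d, |g y| ≤ B) :
    IntegrableOn (fun q => a q * ∫ y in Q d, ind y q * g y) (Q d) := by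
  have h1 := (prod_integrable ha ha1 hg hB).integral_prod_left
  refine h1.congr (Filter.Eventually.of_forall fun q => ?_)
  change (∫ y in Q d, a q * (ind y q * g y)) = a q * ∫ y in Q d, ind y q * g y
  rw [integral_const_mul]

theorem box_int {d : ℕ} (g : (Fin d → ℝ) → ℝ) {q : Fin d → ℝ} (hq : q ∈ Q d) :
    ∫ y in box q, g y = ∫ y in Q d, ind y q * g y := by
  have hm : MeasurableSet (box q) := by
    have : box q = Set.univ.pi fun r => Set.Ico 0 (q r) := by
      ext y
      simp [box, Set.mem_pi]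
    rw [this]
    exact MeasurableSet.univ_pi fun r => measurableSet_Ico
  have hsub : Q d ∩ box q = box q := by
    refine Set.inter_eq_right.2 fun y hy => ?_
    exact ⟨fun r => (hy r).1, fun r => (hy r).2.le.trans (mem_Q hq r).2⟩
  rw [← hsub, ← setIntegral_indicator hm]
  refine setIntegral_congr_fun measurableSet_Icc fun y hy => ?_
  rw [ind_eq]
  by_cases h : ∀ r, y r < q r
  · have h' : y ∈ box q := fun r => ⟨(mem_Q hy r).1, h r⟩
    rw [Set.indicator_of_mem h', if_pos h, one_mul]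
  · have h' : ¬ y ∈ box q := fun h' => h fun r => (h' r).2
    rw [Set.indicator_of_notMem h', if_neg h, zero_mul]

theorem locDisc_eq {d m : ℕ} {z : ℕ → Fin d → ℝ} (h : IsKritzinger d m z) (N : ℕ)
    (q : Fin d → ℝ) : locDisc z N q = ∑ i ∈ range N, ind (z i) q - N * ∏ r, q r := by
  unfold locDisc
  congr 1
  rw [card_filter]
  push_cast
  refine sum_congr rfl fun i _ => ?_
  rw [ind_eq]
  have e : (∀ r, 0 ≤ z i r ∧ z i r < q r) ↔ ∀ r, z i r < q r :=
    ⟨fun h' r => (h' r).2, fun h' r => ⟨(h.mem i r).1, h' r⟩⟩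
  simp only [e]

theorem disc_bound {k m : ℕ} {z : ℕ → Fin (k + 1) → ℝ} (h : IsKritzinger (k + 1) m z) (n : ℕ)
    (hn : m ≤ n) (g : (Fin (k + 1) → ℝ) → ℝ) (B : ℝ) (hg : Measurable g)
    (hB : ∀ y ∈ Q (k + 1), |g y| ≤ B) (h0 : ∫ y in Q (k + 1), g y = 0) :
    |∫ q in Q (k + 1), locDisc z n q * ∫ y in box q, g y| ≤ (drop z n + 1) / 2 * B := by
  have hb := bound h n hn g B hg hB h0
  rw [swap hg hB] at hb
  have hm1 : ∀ i, Measurable (fun q => ind (z i) q) := fun i =>
    (ind_meas _).comp (measurable_const.prodMk measurable_id)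
  have hm2 : Measurable (fun q : Fin (k + 1) → ℝ => ∏ r, q r) := by fun_prop
  have hv : ∀ q ∈ Q (k + 1), |∏ r, q r| ≤ 1 := by
    intro q hq
    rw [abs_of_nonneg (prod_nonneg fun r _ => (mem_Q hq r).1)]
    exact prod_le_one (fun r _ => (mem_Q hq r).1) fun r _ => (mem_Q hq r).2
  have e1 : ∫ q in Q (k + 1), locDisc z n q * ∫ y in box q, g y =
      ∫ q in Q (k + 1), ((∑ i ∈ range n, ind (z i) q * ∫ y in Q (k + 1), ind y q * g y) -
        n * ((∏ r, q r) * ∫ y in Q (k + 1), ind y q * g y)) := by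
    refine setIntegral_congr_fun measurableSet_Icc fun q hq => ?_
    rw [box_int g hq, locDisc_eq h, ← sum_mul]
    ring
  have i1 : ∀ i, IntegrableOn (fun q => ind (z i) q * ∫ y in Q (k + 1), ind y q * g y)
      (Q (k + 1)) := fun i => int_gen (hm1 i) (fun q _ => ind_abs _ _) hg hB
  have i2 : IntegrableOn (fun q : Fin (k + 1) → ℝ =>
      (∏ r, q r) * ∫ y in Q (k + 1), ind y q * g y) (Q (k + 1)) := int_gen hm2 hv hg hB
  have i3 : IntegrableOn (fun q => ∑ i ∈ range n, ind (z i) q *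
      ∫ y in Q (k + 1), ind y q * g y) (Q (k + 1)) := integrable_finsetSum _ fun i _ => i1 i
  rw [e1, integral_sub i3 (i2.const_mul _), integral_finsetSum _ fun i _ => i1 i,
    integral_const_mul, swap_gen hm2 hv hg hB (fun y => hh y) fun y hy => int_vol_ind hy,
    sum_congr rfl fun i _ => swap_gen (hm1 i) (fun q _ => ind_abs _ _) hg hB
      (fun y => Kp (z i) y) fun y hy => int_ind_ind (mem_cube_Q h i) hy]
  exact hb

end Pool.Agent.H36.KS
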