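import Pool.Agent.H36.KS.Window

set_option autoImplicit false

/-!
# [H36 KS Err] integration error: three forms, bound at one index, growth after an index
-/

namespace Pool.Agent.H36.KS

open Finset MeasureTheory
open Pool.Agent.H47.KZ (Kp hh IsKritzinger)

/-- integration error (times `N`) for the function `x ↦ ∫ K(x,y) g(y) dy` -/
noncomputable def errg {d : ℕ} (z : ℕ → Fin d → ℝ) (N : ℕ) (g : (Fin d → ℝ) → ℝ) : ℝ :=
  ∑ i ∈ range N, (∫ y in Q d, Kp (z i) y * g y) - N * ∫ y in Q d, hh y * g y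

theorem err_kernel {d : ℕ} (z : ℕ → Fin d → ℝ) (N : ℕ) (g : (Fin d → ℝ) → ℝ) {B : ℝ}
    (hg : Measurable g) (hB : ∀ y ∈ Q d, |g y| ≤ B) :
    ∑ i ∈ range N, (∫ y in Q d, Kp (z i) y * g y) -
      N * ∫ x in Q d, ∫ y in Q d, Kp x y * g y = errg z N g := by
  rw [swap hg hB]
  rfl

theorem err_disc {d m : ℕ} {z : ℕ → Fin d → ℝ} (h : IsKritzinger d m z) (n : ℕ)
    (g : (Fin d → ℝ) → ℝ) {B : ℝ} (hg : Measurable g) (hB : ∀ y ∈ Q d, |g y| ≤ B) :
    ∫ q in Q d, locDisc z n q * ∫ y in box q, g y = errg z n g := by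
  have hm1 : ∀ i, Measurable (fun q => ind (z i) q) := fun i =>
    (ind_meas _).comp (measurable_const.prodMk measurable_id)
  have hm2 : Measurable (fun q : Fin d → ℝ => ∏ r, q r) := by fun_prop
  have hv : ∀ q ∈ Q d, |∏ r, q r| ≤ 1 := by
    intro q hq
    rw [abs_of_nonneg (prod_nonneg fun r _ => (mem_Q hq r).1)]
    exact prod_le_one (fun r _ => (mem_Q hq r).1) fun r _ => (mem_Q hq r).2
  have e1 : ∫ q in Q d, locDisc z n q * ∫ y in box q, g y =
      ∫ q in Q d, ((∑ i ∈ range n, ind (z i) q * ∫ y in Q d, ind y q * g y) -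
        n * ((∏ r, q r) * ∫ y in Q d, ind y q * g y)) := by
    refine setIntegral_congr_fun measurableSet_Icc fun q hq => ?_
    rw [box_int g hq, locDisc_eq h, ← sum_mul]
    ring
  have i1 : ∀ i, IntegrableOn (fun q => ind (z i) q * ∫ y in Q d, ind y q * g y)
      (Q d) := fun i => int_gen (hm1 i) (fun q _ => ind_abs _ _) hg hB
  have i2 : IntegrableOn (fun q : Fin d → ℝ =>
      (∏ r, q r) * ∫ y in Q d, ind y q * g y) (Q d) := int_gen hm2 hv hg hB
  have i3 : IntegrableOn (fun q => ∑ i ∈ range n, ind (z i) q *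
      ∫ y in Q d, ind y q * g y) (Q d) := integrable_finsetSum _ fun i _ => i1 i
  rw [e1, integral_sub i3 (i2.const_mul _), integral_finsetSum _ fun i _ => i1 i,
    integral_const_mul, swap_gen hm2 hv hg hB (fun y => hh y) fun y hy => int_vol_ind hy,
    sum_congr rfl fun i _ => swap_gen (hm1 i) (fun q _ => ind_abs _ _) hg hB
      (fun y => Kp (z i) y) fun y hy => int_ind_ind ⟨fun r => (h.mem i r).1,
        fun r => (h.mem i r).2.le⟩ hy]
  rfl

theorem err_one {k m : ℕ} {z : ℕ → Fin (k + 1) → ℝ} (h : IsKritzinger (k + 1) m z) (n : ℕ)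
    (hn : m ≤ n) (g : (Fin (k + 1) → ℝ) → ℝ) (B : ℝ) (hg : Measurable g)
    (hB : ∀ y ∈ Q (k + 1), |g y| ≤ B) (h0 : ∫ y in Q (k + 1), g y = 0) :
    |errg z n g| ≤ (drop z n + 1) / 2 * B := by
  have hb := bound h n hn g B hg hB h0
  rw [err_kernel z n g hg hB] at hb
  exact hb

/-- increment of the discrepancy function between the indices `i` and `N` -/
noncomputable def dl {d : ℕ} (z : ℕ → Fin d → ℝ) (i N : ℕ) (q : Fin d → ℝ) : ℝ :=
  ∑ l ∈ Ico i N, ind (z l) q - ((N : ℝ) - i) * ∏ r, q r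

theorem ind_meas_right {d : ℕ} (x : Fin d → ℝ) : Measurable (fun q => ind x q) :=
  (ind_meas _).comp (measurable_const.prodMk measurable_id)

theorem vol_meas (d : ℕ) : Measurable (fun q : Fin d → ℝ => ∏ r, q r) := by fun_prop

theorem vol_abs {d : ℕ} : ∀ q ∈ Q d, |∏ r, q r| ≤ 1 := by
  intro q hq
  rw [abs_of_nonneg (prod_nonneg fun r _ => (mem_Q hq r).1)]
  exact prod_le_one (fun r _ => (mem_Q hq r).1) fun r _ => (mem_Q hq r).2

theorem dl_meas {d : ℕ} (z : ℕ → Fin d → ℝ) (i N : ℕ) : Measurable (dl z i N) := by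
  unfold dl
  exact (Finset.measurable_sum _ fun l _ => ind_meas_right (z l)).sub ((vol_meas d).const_mul _)

theorem dl_bd {d : ℕ} (z : ℕ → Fin d → ℝ) (i N : ℕ) (hN : i ≤ N) :
    ∀ q ∈ Q d, |dl z i N q| ≤ 2 * ((N : ℝ) - i) := by
  intro q hq
  have hNi : (0 : ℝ) ≤ (N : ℝ) - i := sub_nonneg.2 (Nat.cast_le.2 hN)
  unfold dl
  have a1 : |∑ l ∈ Ico i N, ind (z l) q| ≤ (N : ℝ) - i := by
    refine (abs_sum_le_sum_abs _ _).trans ((sum_le_sum fun l _ => ind_abs _ _).trans ?_)
    simp only [sum_const, Nat.card_Ico, nsmul_eq_mul, mul_one]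
    rw [Nat.cast_sub hN]
  have a2 : |((N : ℝ) - i) * ∏ r, q r| ≤ (N : ℝ) - i := by
    rw [abs_mul, abs_of_nonneg hNi]
    exact mul_le_of_le_one_right hNi (vol_abs q hq)
  have a3 := abs_sub (∑ l ∈ Ico i N, ind (z l) q) (((N : ℝ) - i) * ∏ r, q r)
  linarith

theorem dl_int_abs {d : ℕ} (z : ℕ → Fin d → ℝ) (i N : ℕ) (hN : i ≤ N) :
    IntegrableOn (fun q => |dl z i N q|) (Q d) := by
  have hfin : IsFiniteMeasure ((volume : Measure (Fin d → ℝ)).restrict (Q d)) :=
    ⟨by rw [Measure.restrict_apply_univ, vol_Q]; exact ENNReal.one_lt_top⟩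
  refine Integrable.mono' (integrable_const (2 * ((N : ℝ) - i)))
    (dl_meas z i N).norm.aestronglyMeasurable ?_
  refine ae_restrict_of_forall_mem measurableSet_Icc fun q hq => ?_
  rw [Real.norm_eq_abs, abs_abs]
  exact dl_bd z i N hN q hq

theorem dl_abs {k m : ℕ} {z : ℕ → Fin (k + 1) → ℝ} (h : IsKritzinger (k + 1) m z) (i N : ℕ)
    (hi : m ≤ i) (hN : i ≤ N) :
    ∫ q in Q (k + 1), |dl z i N q| ≤ Real.sqrt (((N : ℝ) - i) * (drop z i + 1)) := by
  have hfin : IsFiniteMeasure ((volume : Measure (Fin (k + 1) → ℝ)).restrict (Q (k + 1))) :=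
    ⟨by rw [Measure.restrict_apply_univ, vol_Q]; exact ENNReal.one_lt_top⟩
  have iΔ := dl_int_abs z i N hN
  have iΔ2 : IntegrableOn (fun q => dl z i N q ^ 2) (Q (k + 1)) := by
    refine Integrable.mono' (integrable_const ((2 * ((N : ℝ) - i)) ^ 2))
      ((dl_meas z i N).pow_const 2).aestronglyMeasurable ?_
    refine ae_restrict_of_forall_mem measurableSet_Icc fun q hq => ?_
    rw [Real.norm_eq_abs, abs_of_nonneg (sq_nonneg _), ← sq_abs]
    exact pow_le_pow_left₀ (abs_nonneg _) (dl_bd z i N hN q hq) 2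
  have hvar : (∫ q in Q (k + 1), |dl z i N q|) ^ 2 ≤ ∫ q in Q (k + 1), dl z i N q ^ 2 := by
    set c := ∫ q in Q (k + 1), |dl z i N q| with hc
    have h1 : 0 ≤ ∫ q in Q (k + 1), (|dl z i N q| - c) ^ 2 := integral_nonneg fun q => sq_nonneg _
    have e : ∀ q : Fin (k + 1) → ℝ, (|dl z i N q| - c) ^ 2 =
        dl z i N q ^ 2 - 2 * c * |dl z i N q| + c ^ 2 := by
      intro q
      rw [sub_sq, sq_abs]
      ring
    have ic : IntegrableOn (fun _ : Fin (k + 1) → ℝ => c ^ 2) (Q (k + 1)) :=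
      integrable_const _
    have i12 : IntegrableOn (fun q => dl z i N q ^ 2 - 2 * c * |dl z i N q|) (Q (k + 1)) :=
      iΔ2.sub (iΔ.const_mul _)
    rw [integral_congr_ae (Filter.Eventually.of_forall e), integral_add i12 ic,
      integral_sub iΔ2 (iΔ.const_mul _), integral_const_mul, ← hc, setIntegral_const,
      measureReal_def, vol_Q] at h1
    simp only [ENNReal.toReal_one, smul_eq_mul, one_mul] at h1
    linarith
  have hen : ∫ q in Q (k + 1), dl z i N q ^ 2 ≤ ((N : ℝ) - i) * (drop z i + 1) := by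
    have h1 := window h i hi N hN
    rw [energy_eq h i N hN] at h1
    have h2 : 0 ≤ ∑ n ∈ Ico i N, drop z n := sum_nonneg fun n hn =>
      drop_nonneg h n (hi.trans (mem_Ico.1 hn).1)
    have h3 : ∫ q in Q (k + 1), dl z i N q ^ 2 =
      ∫ q in Q (k + 1), (∑ l ∈ Ico i N, ind (z l) q - ((N : ℝ) - i) * ∏ r, q r) ^ 2 := rfl
    linarith
  exact Real.le_sqrt_of_sq_le (hvar.trans hen)

/-- the increment tested against a bounded function -/
theorem dl_test {k m : ℕ} {z : ℕ → Fin (k + 1) → ℝ} (h : IsKritzinger (k + 1) m z) (i N : ℕ)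
    (hi : m ≤ i) (hN : i ≤ N) (b : (Fin (k + 1) → ℝ) → ℝ) (B : ℝ) (hB0 : 0 ≤ B)
    (hb : ∀ q ∈ Q (k + 1), |b q| ≤ B) (ib : IntegrableOn (fun q => dl z i N q * b q) (Q (k + 1))) :
    |∫ q in Q (k + 1), dl z i N q * b q| ≤ Real.sqrt (((N : ℝ) - i) * (drop z i + 1)) * B := by
  refine le_trans ?_ (mul_le_mul_of_nonneg_right (dl_abs h i N hi hN) hB0)
  rw [← integral_mul_const]
  refine (abs_integral_le_integral_abs).trans ?_
  refine setIntegral_mono_on ib.abs ((dl_int_abs z i N hN).mul_const B) measurableSet_Icc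
    fun q hq => ?_
  rw [abs_mul]
  exact mul_le_mul_of_nonneg_left (hb q hq) (abs_nonneg _)

theorem err_diff {k m : ℕ} {z : ℕ → Fin (k + 1) → ℝ} (h : IsKritzinger (k + 1) m z) (i N : ℕ)
    (hi : m ≤ i) (hN : i ≤ N) (g : (Fin (k + 1) → ℝ) → ℝ) (B : ℝ) (hg : Measurable g)
    (hB : ∀ y ∈ Q (k + 1), |g y| ≤ B) :
    |errg z N g - errg z i g| ≤ Real.sqrt (((N : ℝ) - i) * (drop z i + 1)) * B := by
  have hB0 : 0 ≤ B := (abs_nonneg _).trans (hB 0 ⟨le_rfl, fun _ => zero_le_one⟩)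
  have hH : ∀ q ∈ Q (k + 1), |∫ y in Q (k + 1), ind y q * g y| ≤ B := by
    intro q _
    have h1 := norm_setIntegral_le_of_norm_le_const (μ := volume) (s := Q (k + 1)) (C := B)
      (f := fun y => ind y q * g y) (by rw [vol_Q]; exact ENNReal.one_lt_top)
      (fun y hy => by
        rw [Real.norm_eq_abs, abs_mul]
        calc |ind y q| * |g y| ≤ 1 * B :=
              mul_le_mul (ind_abs _ _) (hB y hy) (abs_nonneg _) zero_le_one
          _ = B := one_mul B)
    rw [Real.norm_eq_abs, measureReal_def, vol_Q] at h1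
    simpa using h1
  have i1 : ∀ l, IntegrableOn (fun q => ind (z l) q * ∫ y in Q (k + 1), ind y q * g y)
      (Q (k + 1)) := fun l => int_gen (ind_meas_right (z l)) (fun q _ => ind_abs _ _) hg hB
  have i2 : IntegrableOn (fun q : Fin (k + 1) → ℝ =>
      (∏ r, q r) * ∫ y in Q (k + 1), ind y q * g y) (Q (k + 1)) :=
    int_gen (vol_meas _) vol_abs hg hB
  have i3 : IntegrableOn (fun q => ∑ l ∈ Ico i N, ind (z l) q *
      ∫ y in Q (k + 1), ind y q * g y) (Q (k + 1)) := integrable_finsetSum _ fun l _ => i1 l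
  have e1 : ∀ q : Fin (k + 1) → ℝ, dl z i N q * ∫ y in Q (k + 1), ind y q * g y =
      (∑ l ∈ Ico i N, ind (z l) q * ∫ y in Q (k + 1), ind y q * g y) -
        ((N : ℝ) - i) * ((∏ r, q r) * ∫ y in Q (k + 1), ind y q * g y) := by
    intro q
    unfold dl
    rw [← sum_mul]
    ring
  have hdiff : errg z N g - errg z i g =
      ∫ q in Q (k + 1), dl z i N q * ∫ y in Q (k + 1), ind y q * g y := by
    rw [integral_congr_ae (Filter.Eventually.of_forall e1), integral_sub i3 (i2.const_mul _),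
      integral_finsetSum _ fun l _ => i1 l, integral_const_mul,
      swap_gen (vol_meas _) vol_abs hg hB (fun y => hh y) fun y hy => int_vol_ind hy,
      sum_congr rfl fun l _ => swap_gen (ind_meas_right (z l)) (fun q _ => ind_abs _ _) hg hB
        (fun y => Kp (z l) y) fun y hy => int_ind_ind (mem_cube_Q h l) hy]
    unfold errg
    rw [← sum_range_add_sum_Ico (fun l => ∫ y in Q (k + 1), Kp (z l) y * g y) hN]
    ring
  have iΔH : IntegrableOn (fun q => dl z i N q * ∫ y in Q (k + 1), ind y q * g y) (Q (k + 1)) :=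
    (i3.sub (i2.const_mul ((N : ℝ) - i))).congr (Filter.Eventually.of_forall fun q => (e1 q).symm)
  rw [hdiff]
  exact dl_test h i N hi hN _ B hB0 hH iΔH

/-- growth of the drop -/
theorem drop_growth {k m : ℕ} {z : ℕ → Fin (k + 1) → ℝ} (h : IsKritzinger (k + 1) m z) (i N : ℕ)
    (hi : m ≤ i) (hN : i ≤ N) :
    drop z N ≤ drop z i + 2 * Real.sqrt (((N : ℝ) - i) * (drop z i + 1)) := by
  have hfin : IsFiniteMeasure ((volume : Measure (Fin (k + 1) → ℝ)).restrict (Q (k + 1))) :=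
    ⟨by rw [Measure.restrict_apply_univ, vol_Q]; exact ENNReal.one_lt_top⟩
  have hw := drop_window h i N hi hN
  set y := z N with hy
  have hyQ : y ∈ Q (k + 1) := mem_cube_Q h N
  have hbm : Measurable (fun q : Fin (k + 1) → ℝ => ind y q - ∏ r, q r) :=
    (ind_meas_right y).sub (vol_meas _)
  have hb : ∀ q ∈ Q (k + 1), |ind y q - ∏ r, q r| ≤ 1 := by
    intro q hq
    have a1 : 0 ≤ ind y q ∧ ind y q ≤ 1 := by
      rw [ind_eq]
      split_ifs <;> simp
    have a2 : 0 ≤ ∏ r, q r := prod_nonneg fun r _ => (mem_Q hq r).1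
    have a3 : ∏ r, q r ≤ 1 := prod_le_one (fun r _ => (mem_Q hq r).1) fun r _ => (mem_Q hq r).2
    exact abs_le.2 ⟨by linarith [a1.1], by linarith [a1.2]⟩
  have ib : IntegrableOn (fun q => dl z i N q * (ind y q - ∏ r, q r)) (Q (k + 1)) := by
    refine Integrable.mono' (integrable_const (2 * ((N : ℝ) - i)))
      ((dl_meas z i N).mul hbm).aestronglyMeasurable ?_
    refine ae_restrict_of_forall_mem measurableSet_Icc fun q hq => ?_
    rw [Real.norm_eq_abs, abs_mul]
    have h1 := dl_bd z i N hN q hq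
    have h2 := hb q hq
    calc |dl z i N q| * |ind y q - ∏ r, q r| ≤ 2 * ((N : ℝ) - i) * 1 :=
          mul_le_mul h1 h2 (abs_nonneg _) ((abs_nonneg _).trans h1)
      _ = 2 * ((N : ℝ) - i) := mul_one _
  have ht := dl_test h i N hi hN _ 1 zero_le_one hb ib
  have hmul : ∀ {a b : (Fin (k + 1) → ℝ) → ℝ}, Measurable a → Measurable b →
      (∀ q ∈ Q (k + 1), |a q| ≤ 1) → (∀ q ∈ Q (k + 1), |b q| ≤ 1) →
      IntegrableOn (fun q => a q * b q) (Q (k + 1)) := by
    intro a b ha hb ha1 hb1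
    refine Integrable.mono' (integrable_const (1 : ℝ)) (ha.mul hb).aestronglyMeasurable ?_
    refine ae_restrict_of_forall_mem measurableSet_Icc fun q hq => ?_
    rw [Real.norm_eq_abs, abs_mul]
    exact mul_le_one₀ (ha1 q hq) (abs_nonneg _) (hb1 q hq)
  have i1 : ∀ l, IntegrableOn (fun q => ind (z l) q * ind y q) (Q (k + 1)) := fun l =>
    hmul (ind_meas_right _) (ind_meas_right _) (fun q _ => ind_abs _ _) fun q _ => ind_abs _ _
  have i2 : ∀ x : Fin (k + 1) → ℝ, IntegrableOn (fun q => (∏ r, q r) * ind x q) (Q (k + 1)) :=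
    fun x => hmul (vol_meas _) (ind_meas_right _) vol_abs fun q _ => ind_abs _ _
  have i3 : IntegrableOn (fun q : Fin (k + 1) → ℝ => (∏ r, q r) * ∏ r, q r) (Q (k + 1)) :=
    hmul (vol_meas _) (vol_meas _) vol_abs vol_abs
  have e3 : ∫ q in Q (k + 1), (∏ r, q r) * ∏ r, q r = (1 / 3) ^ (k + 1) := by
    have h1 := sum_int (z := z) (mem_cube_Q h) ∅ 1
    simp only [sum_empty, zero_sub, one_mul, neg_sq, one_pow, mul_zero, sub_zero, zero_add] at h1
    rw [← h1]
    exact integral_congr_ae (Filter.Eventually.of_forall fun q => (sq _).symm)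
  have ekc : ∫ q in Q (k + 1), dl z i N q * (ind y q - ∏ r, q r) =
      ∑ l ∈ Ico i N, kc (z l) y := by
    have e : ∀ q : Fin (k + 1) → ℝ, dl z i N q * (ind y q - ∏ r, q r) =
        (∑ l ∈ Ico i N, (ind (z l) q * ind y q - (∏ r, q r) * ind (z l) q)) -
          (((N : ℝ) - i) * ((∏ r, q r) * ind y q) - ((N : ℝ) - i) * ((∏ r, q r) * ∏ r, q r)) := by
      intro q
      unfold dl
      rw [sum_sub_distrib, ← sum_mul, ← mul_sum]
      ring
    have s1 : ∀ l, IntegrableOn (fun q => ind (z l) q * ind y q - (∏ r, q r) * ind (z l) q)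
        (Q (k + 1)) := fun l => (i1 l).sub (i2 (z l))
    have s2 : IntegrableOn (fun q => ∑ l ∈ Ico i N,
        (ind (z l) q * ind y q - (∏ r, q r) * ind (z l) q)) (Q (k + 1)) :=
      integrable_finsetSum _ fun l _ => s1 l
    have s3 : IntegrableOn (fun q : Fin (k + 1) → ℝ => ((N : ℝ) - i) * ((∏ r, q r) * ind y q) -
        ((N : ℝ) - i) * ((∏ r, q r) * ∏ r, q r)) (Q (k + 1)) :=
      ((i2 y).const_mul _).sub (i3.const_mul _)
    rw [integral_congr_ae (Filter.Eventually.of_forall e), integral_sub s2 s3,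
      integral_finsetSum _ fun l _ => s1 l, integral_sub ((i2 y).const_mul _) (i3.const_mul _),
      integral_const_mul, integral_const_mul, int_vol_ind hyQ, e3]
    have e4 : ∀ l ∈ Ico i N, ∫ q in Q (k + 1), (ind (z l) q * ind y q - (∏ r, q r) * ind (z l) q) =
        Kp (z l) y - hh (z l) := by
      intro l _
      rw [integral_sub (i1 l) (i2 (z l)), int_ind_ind (mem_cube_Q h l) hyQ,
        int_vol_ind (mem_cube_Q h l)]
    rw [sum_congr rfl e4]
    unfold kc
    rw [sum_add_distrib, sum_sub_distrib, sum_sub_distrib]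
    simp only [sum_const, Nat.card_Ico, nsmul_eq_mul]
    rw [Nat.cast_sub hN, sum_sub_distrib]
    ring
  rw [ekc, mul_one] at ht
  have h5 := abs_le.1 ht
  linarith [h5.1]

end Pool.Agent.H36.KS
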