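import Pool.Agent.H36.KS.One

set_option autoImplicit false

/-!
# [H36 KS Fin] the weight `w_n = (drop n + 1)/2` and the final bounds
-/

namespace Pool.Agent.H36.KS

open Finset MeasureTheory
open Pool.Agent.H47.KZ (Kp hh IsKritzinger)

/-- the weight -/
noncomputable def wt {k : ℕ} (z : ℕ → Fin (k + 1) → ℝ) (n : ℕ) : ℝ := (drop z n + 1) / 2

/-- `N` times the error of the equal weight rule -/
noncomputable def err {d : ℕ} (z : ℕ → Fin d → ℝ) (N : ℕ) (f : (Fin d → ℝ) → ℝ) : ℝ :=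
  ∑ i ∈ range N, f (z i) - N * ∫ x in Q d, f x

/-- the function with the weight `g` -/
noncomputable def prim {d : ℕ} (g : (Fin d → ℝ) → ℝ) (x : Fin d → ℝ) : ℝ :=
  ∫ y in Q d, (∏ r, (1 - max (x r) (y r))) * g y

theorem wt_half {k m : ℕ} {z : ℕ → Fin (k + 1) → ℝ} (h : IsKritzinger (k + 1) m z) (n : ℕ)
    (hn : m ≤ n) : 1 / 2 ≤ wt z n := by
  have := drop_nonneg h n hn
  unfold wt
  linarith

theorem wt_sum {k m : ℕ} {z : ℕ → Fin (k + 1) → ℝ} (h : IsKritzinger (k + 1) m z) (M : ℕ)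
    (hM : m ≤ M) : ∑ n ∈ Ico m M, wt z n ≤ (m : ℝ) ^ 2 + M := by
  have h1 := sum_drop h M hM
  unfold wt
  rw [← sum_div, sum_add_distrib]
  simp only [sum_const, Nat.card_Ico, nsmul_eq_mul, mul_one]
  rw [Nat.cast_sub hM]
  have hm : (0 : ℝ) ≤ m := Nat.cast_nonneg m
  linarith

theorem wt_window {k m : ℕ} {z : ℕ → Fin (k + 1) → ℝ} (h : IsKritzinger (k + 1) m z) (i L : ℕ)
    (hi : m ≤ i) : ∑ n ∈ Ico i (i + L), wt z n ≤ L * (wt z i + 1 / 2) := by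
  have h1 := window h i hi (i + L) (Nat.le_add_right i L)
  have h2 := energy_nonneg h i (i + L) (Nat.le_add_right i L)
  unfold wt
  rw [← sum_div, sum_add_distrib]
  simp only [sum_const, Nat.card_Ico, nsmul_eq_mul, mul_one]
  rw [Nat.add_sub_cancel_left]
  push_cast at h1
  have e : ((i : ℝ) + L - i) = L := by ring
  rw [e] at h1
  linarith

theorem err_prim {d : ℕ} (z : ℕ → Fin d → ℝ) (N : ℕ) (g : (Fin d → ℝ) → ℝ) {B : ℝ}
    (hg : Measurable g) (hB : ∀ y ∈ Q d, |g y| ≤ B) : err z N (prim g) = errg z N g :=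
  err_kernel z N g hg hB

theorem disc_one {k m : ℕ} {z : ℕ → Fin (k + 1) → ℝ} (h : IsKritzinger (k + 1) m z) (i N : ℕ)
    (hi : m ≤ i) (hN : i ≤ N) (g : (Fin (k + 1) → ℝ) → ℝ) (B : ℝ) (hg : Measurable g)
    (hB : ∀ y ∈ Q (k + 1), |g y| ≤ B) (h0 : 0 ≤ ∫ y in Q (k + 1), g y) :
    ∫ q in Q (k + 1), locDisc z N q * (∫ y in box q, g y) ≤
        (wt z i + Real.sqrt (2 * ((N : ℝ) - i) * wt z i)) * B ∧
      err z N (prim g) ≤ (wt z i + Real.sqrt (2 * ((N : ℝ) - i) * wt z i)) * B := by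
  rw [err_disc h N g hg hB, err_prim z N g hg hB]
  exact ⟨one_sided_at h i N hi hN g B hg hB h0, one_sided_at h i N hi hN g B hg hB h0⟩

theorem disc_two {k m : ℕ} {z : ℕ → Fin (k + 1) → ℝ} (h : IsKritzinger (k + 1) m z) (i N : ℕ)
    (hi : m ≤ i) (hN : i ≤ N) (g : (Fin (k + 1) → ℝ) → ℝ) (B : ℝ) (hg : Measurable g)
    (hB : ∀ y ∈ Q (k + 1), |g y| ≤ B) (h0 : ∫ y in Q (k + 1), g y = 0) :
    |∫ q in Q (k + 1), locDisc z N q * (∫ y in box q, g y)| ≤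
        (wt z i + Real.sqrt (2 * ((N : ℝ) - i) * wt z i)) * B ∧
      |err z N (prim g)| ≤ (wt z i + Real.sqrt (2 * ((N : ℝ) - i) * wt z i)) * B := by
  rw [err_disc h N g hg hB, err_prim z N g hg hB]
  exact ⟨two_sided_at h i N hi hN g B hg hB h0, two_sided_at h i N hi hN g B hg hB h0⟩

theorem prod_one {k m : ℕ} {z : ℕ → Fin (k + 1) → ℝ} (h : IsKritzinger (k + 1) m z) (i N : ℕ)
    (hi : m ≤ i) (hN : i ≤ N) (φ : Fin (k + 1) → ℝ → ℝ) (B : Fin (k + 1) → ℝ)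
    (hφ : ∀ r, ContDiff ℝ 2 (φ r)) (h0 : ∀ r, deriv (φ r) 0 = 0) (h1 : ∀ r, φ r 1 = 0)
    (hB : ∀ r, ∀ t ∈ Set.Icc (0 : ℝ) 1, |deriv (deriv (φ r)) t| ≤ B r)
    (h2 : ∀ r, deriv (φ r) 1 ≤ 0) :
    err z N (fun x => ∏ r, φ r (x r)) ≤
      (wt z i + Real.sqrt (2 * ((N : ℝ) - i) * wt z i)) * ∏ r, B r := by
  obtain ⟨g, hg, hgB, hgi, hge⟩ := prod_err z (mem_cube_Q h) φ B hφ h0 h1 hB
  have h3 : 0 ≤ ∫ y in Q (k + 1), g y := by
    rw [hgi]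
    exact prod_nonneg fun r _ => by linarith [h2 r]
  have h4 := one_sided_at h i N hi hN g _ hg hgB h3
  rw [hge N] at h4
  exact h4

theorem prod_two {k m : ℕ} {z : ℕ → Fin (k + 1) → ℝ} (h : IsKritzinger (k + 1) m z) (i N : ℕ)
    (hi : m ≤ i) (hN : i ≤ N) (φ : Fin (k + 1) → ℝ → ℝ) (B : Fin (k + 1) → ℝ)
    (hφ : ∀ r, ContDiff ℝ 2 (φ r)) (h0 : ∀ r, deriv (φ r) 0 = 0) (h1 : ∀ r, φ r 1 = 0)
    (hB : ∀ r, ∀ t ∈ Set.Icc (0 : ℝ) 1, |deriv (deriv (φ r)) t| ≤ B r)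
    (h2 : ∃ r, deriv (φ r) 1 = 0) :
    |err z N (fun x => ∏ r, φ r (x r))| ≤
      (wt z i + Real.sqrt (2 * ((N : ℝ) - i) * wt z i)) * ∏ r, B r := by
  obtain ⟨g, hg, hgB, hgi, hge⟩ := prod_err z (mem_cube_Q h) φ B hφ h0 h1 hB
  have h3 : ∫ y in Q (k + 1), g y = 0 := by
    rw [hgi]
    obtain ⟨r, hr⟩ := h2
    exact prod_eq_zero (mem_univ r) (by rw [hr, neg_zero])
  have h4 := two_sided_at h i N hi hN g _ hg hgB h3
  rw [hge N] at h4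
  exact h4

end Pool.Agent.H36.KS
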