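import Pool.Agent.H36.KS.Err

set_option autoImplicit false

/-!
# [H36 KS One] one-sided bound: only `0 ≤ ∫ g` is needed
-/

namespace Pool.Agent.H36.KS

open Finset MeasureTheory
open Pool.Agent.H47.KZ (Kp hh IsKritzinger)

theorem Fn_one {k m : ℕ} {z : ℕ → Fin (k + 1) → ℝ} (h : IsKritzinger (k + 1) m z) (n : ℕ) :
    Fn z n (fun _ => 1) = 0 := by
  have h1 : ∀ j ∈ range n, Kp (z j) (fun _ : Fin (k + 1) => (1 : ℝ)) = 0 := by
    intro j _
    unfold Kp
    refine prod_eq_zero (mem_univ 0) ?_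
    rw [max_eq_right (h.mem j 0).2.le]
    ring
  have h2 : hh (fun _ : Fin (k + 1) => (1 : ℝ)) = 0 := by
    unfold hh
    refine prod_eq_zero (mem_univ 0) ?_
    norm_num
  unfold Fn
  rw [sum_congr rfl h1, h2]
  simp

theorem one_sided {k m : ℕ} {z : ℕ → Fin (k + 1) → ℝ} (h : IsKritzinger (k + 1) m z) (n : ℕ)
    (hn : m ≤ n) (g : (Fin (k + 1) → ℝ) → ℝ) (B : ℝ) (hg : Measurable g)
    (hB : ∀ y ∈ Q (k + 1), |g y| ≤ B) (h0 : 0 ≤ ∫ y in Q (k + 1), g y) :
    errg z n g ≤ (drop z n + 1) / 2 * B := by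
  have hB0 : 0 ≤ B := (abs_nonneg _).trans (hB 0 ⟨le_rfl, fun _ => zero_le_one⟩)
  set c := Fn z n (z n) with hc
  have hc0 : c ≤ 0 := by
    have h1 := greedy h n hn (fun _ => 1) ⟨fun _ => zero_le_one, fun _ => le_rfl⟩
    rw [Fn_one h n] at h1
    exact h1
  have iK : ∀ i, IntegrableOn (fun y => Kp (z i) y * g y) (Q (k + 1)) := fun i =>
    mul_int (Kp_cont_right (z i)) hg hB
  have iH : IntegrableOn (fun y => hh y * g y) (Q (k + 1)) := mul_int (hh_cont _) hg hB
  have iF : IntegrableOn (fun y => (Fn z n y - c) * g y) (Q (k + 1)) :=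
    mul_int ((Fn_cont z n).sub continuous_const) hg hB
  have iR : IntegrableOn (fun y => (2 * hh y - ∏ r, (1 - y r)) * g y) (Q (k + 1)) :=
    mul_int ((continuous_const.mul (hh_cont _)).sub (by fun_prop)) hg hB
  have ig : IntegrableOn (fun y => c * g y) (Q (k + 1)) := mul_int continuous_const hg hB
  have key : 2 * errg z n g =
      (∫ y in Q (k + 1), (Fn z n y - c) * g y) +
      (∫ y in Q (k + 1), (2 * hh y - ∏ r, (1 - y r)) * g y) + c * ∫ y in Q (k + 1), g y := by
    have e1 : ∑ i ∈ range n, (∫ y in Q (k + 1), Kp (z i) y * g y) =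
        ∫ y in Q (k + 1), ∑ i ∈ range n, Kp (z i) y * g y :=
      (integral_finsetSum _ fun i _ => iK i).symm
    have iS : IntegrableOn (fun y => ∑ i ∈ range n, Kp (z i) y * g y) (Q (k + 1)) :=
      integrable_finsetSum _ fun i _ => iK i
    have e2 : (∫ y in Q (k + 1), (Fn z n y - c) * g y) +
        ∫ y in Q (k + 1), (2 * hh y - ∏ r, (1 - y r)) * g y =
        ∫ y in Q (k + 1), (2 * (∑ i ∈ range n, Kp (z i) y * g y) - 2 * n * (hh y * g y) -
          c * g y) := by
      rw [← integral_add iF iR]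
      refine integral_congr_ae (Filter.Eventually.of_forall fun y => ?_)
      simp only [Fn]
      rw [← sum_mul]
      ring
    have e3 : ∫ y in Q (k + 1), c * g y = c * ∫ y in Q (k + 1), g y := integral_const_mul _ _
    have i12 : IntegrableOn (fun y => 2 * (∑ i ∈ range n, Kp (z i) y * g y) -
        2 * n * (hh y * g y)) (Q (k + 1)) := (iS.const_mul 2).sub (iH.const_mul _)
    rw [e2, integral_sub i12 ig,
      integral_sub (iS.const_mul 2) (iH.const_mul _), e3, integral_const_mul,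
      integral_const_mul, ← e1]
    unfold errg
    ring
  have b1 : ∫ y in Q (k + 1), (Fn z n y - c) * g y ≤ drop z n * B := by
    rw [drop_eq h n, ← integral_mul_const]
    refine setIntegral_mono_on iF ((cont_int ((Fn_cont z n).sub continuous_const)).mul_const B)
      measurableSet_Icc fun y hy => ?_
    have h1 : 0 ≤ Fn z n y - c := by linarith [greedy h n hn y hy]
    exact mul_le_mul_of_nonneg_left ((le_abs_self _).trans (hB y hy)) h1
  have b2 : ∫ y in Q (k + 1), (2 * hh y - ∏ r, (1 - y r)) * g y ≤ B := by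
    have h1 := norm_setIntegral_le_of_norm_le_const (μ := volume) (s := Q (k + 1)) (C := B)
      (f := fun y => (2 * hh y - ∏ r, (1 - y r)) * g y) (by rw [vol_Q]; exact ENNReal.one_lt_top)
      (fun y hy => by
        have a1 := hh_bd hy
        have a2 : 0 ≤ ∏ r, (1 - y r) := prod_nonneg fun r _ => by linarith [(mem_Q hy r).2]
        have a3 : ∏ r, (1 - y r) ≤ 1 := prod_le_one (fun r _ => by linarith [(mem_Q hy r).2])
          fun r _ => by linarith [(mem_Q hy r).1]
        have a4 : |2 * hh y - ∏ r, (1 - y r)| ≤ 1 := abs_le.2 ⟨by linarith, by linarith⟩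
        rw [Real.norm_eq_abs, abs_mul]
        calc |2 * hh y - ∏ r, (1 - y r)| * |g y| ≤ 1 * B :=
              mul_le_mul a4 (hB y hy) (abs_nonneg _) zero_le_one
          _ = B := one_mul B)
    rw [Real.norm_eq_abs, measureReal_def, vol_Q] at h1
    exact (le_abs_self _).trans (by simpa using h1)
  have b3 : c * ∫ y in Q (k + 1), g y ≤ 0 := mul_nonpos_of_nonpos_of_nonneg hc0 h0
  linarith

/-- one-sided bound at the index `N` from the drop at an earlier index `i` -/
theorem one_sided_at {k m : ℕ} {z : ℕ → Fin (k + 1) → ℝ} (h : IsKritzinger (k + 1) m z) (i N : ℕ)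
    (hi : m ≤ i) (hN : i ≤ N) (g : (Fin (k + 1) → ℝ) → ℝ) (B : ℝ) (hg : Measurable g)
    (hB : ∀ y ∈ Q (k + 1), |g y| ≤ B) (h0 : 0 ≤ ∫ y in Q (k + 1), g y) :
    errg z N g ≤ ((drop z i + 1) / 2 +
      Real.sqrt (2 * ((N : ℝ) - i) * ((drop z i + 1) / 2))) * B := by
  have h1 := one_sided h i hi g B hg hB h0
  have h2 := (abs_le.1 (err_diff h i N hi hN g B hg hB)).2
  have e : 2 * ((N : ℝ) - i) * ((drop z i + 1) / 2) = ((N : ℝ) - i) * (drop z i + 1) := by ring
  rw [e, add_mul]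
  linarith

theorem errg_neg {d : ℕ} (z : ℕ → Fin d → ℝ) (N : ℕ) (g : (Fin d → ℝ) → ℝ) :
    errg z N (fun y => -g y) = -errg z N g := by
  unfold errg
  simp only [mul_neg, integral_neg, sum_neg_distrib]
  ring

theorem two_sided_at {k m : ℕ} {z : ℕ → Fin (k + 1) → ℝ} (h : IsKritzinger (k + 1) m z) (i N : ℕ)
    (hi : m ≤ i) (hN : i ≤ N) (g : (Fin (k + 1) → ℝ) → ℝ) (B : ℝ) (hg : Measurable g)
    (hB : ∀ y ∈ Q (k + 1), |g y| ≤ B) (h0 : ∫ y in Q (k + 1), g y = 0) :
    |errg z N g| ≤ ((drop z i + 1) / 2 +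
      Real.sqrt (2 * ((N : ℝ) - i) * ((drop z i + 1) / 2))) * B := by
  have h1 := one_sided_at h i N hi hN g B hg hB h0.ge
  have h2 := one_sided_at h i N hi hN (fun y => -g y) B hg.neg
    (fun y hy => by rw [abs_neg]; exact hB y hy) (by rw [integral_neg, h0, neg_zero])
  rw [errg_neg] at h2
  exact abs_le.2 ⟨by linarith, h1⟩

/-- products of functions of one variable -/
theorem prod_err {d : ℕ} (z : ℕ → Fin d → ℝ) (hz : ∀ i, z i ∈ Q d)
    (φ : Fin d → ℝ → ℝ) (B : Fin d → ℝ) (hφ : ∀ r, ContDiff ℝ 2 (φ r))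
    (h0 : ∀ r, deriv (φ r) 0 = 0) (h1 : ∀ r, φ r 1 = 0)
    (hB : ∀ r, ∀ t ∈ Set.Icc (0 : ℝ) 1, |deriv (deriv (φ r)) t| ≤ B r) :
    ∃ g : (Fin d → ℝ) → ℝ, Measurable g ∧ (∀ y ∈ Q d, |g y| ≤ ∏ r, B r) ∧
      ∫ y in Q d, g y = ∏ r, (-(deriv (φ r) 1)) ∧
      ∀ N, errg z N g = ∑ i ∈ range N, ∏ r, φ r (z i r) -
        N * ∫ x in Q d, ∏ r, φ r (x r) := by
  have hd : ∀ r, ContDiff ℝ 1 (deriv (φ r)) := fun r =>
    ((contDiff_succ_iff_deriv (n := 1) (f := φ r)).1 (by rw [one_add_one_eq_two]; exact hφ r)).2.2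
  have hc2 : ∀ r, Continuous (deriv (deriv (φ r))) := fun r =>
    (hd r).continuous_deriv (by norm_num)
  set g : (Fin d → ℝ) → ℝ := fun y => ∏ r, -(deriv (deriv (φ r)) (y r)) with hg
  have hgc : Continuous g := by
    rw [hg]
    refine continuous_finsetProd _ fun r _ => ?_
    exact ((hc2 r).comp (continuous_apply r)).neg
  have hgB : ∀ y ∈ Q d, |g y| ≤ ∏ r, B r := by
    intro y hy
    rw [hg]
    simp only
    rw [abs_prod]
    refine prod_le_prod (fun r _ => abs_nonneg _) fun r _ => ?_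
    rw [abs_neg]
    exact hB r _ ⟨(mem_Q hy r).1, (mem_Q hy r).2⟩
  refine ⟨g, hgc.measurable, hgB, ?_, fun N => ?_⟩
  · rw [hg, int_prod (fun r t => -(deriv (deriv (φ r)) t))]
    refine prod_congr rfl fun r _ => ?_
    rw [intervalIntegral.integral_neg]
    have e : ∫ t in (0 : ℝ)..1, deriv (deriv (φ r)) t = deriv (φ r) 1 - deriv (φ r) 0 := by
      refine intervalIntegral.integral_eq_sub_of_hasDerivAt (fun t _ => ?_)
        ((hc2 r).intervalIntegrable _ _)
      exact ((hd r).differentiable (by norm_num) t).hasDerivAt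
    rw [e, h0 r, sub_zero]
  · have hf : ∀ x ∈ Q d, ∫ y in Q d, Kp x y * g y = ∏ r, φ r (x r) := by
      intro x hx
      have e : ∀ y : Fin d → ℝ, Kp x y * g y =
          ∏ r, ((1 - max (x r) (y r)) * (-(deriv (deriv (φ r)) (y r)))) := by
        intro y
        rw [hg]
        unfold Kp
        rw [← prod_mul_distrib]
      rw [integral_congr_ae (Filter.Eventually.of_forall e),
        int_prod (fun r t => (1 - max (x r) t) * (-(deriv (deriv (φ r)) t)))]
      refine prod_congr rfl fun r _ => ?_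
      rw [ker_deriv (φ r) (hφ r) _ (mem_Q hx r).1 (mem_Q hx r).2, h0 r, h1 r]
      ring
    rw [← err_kernel z N g hgc.measurable hgB]
    have e1 : ∑ i ∈ range N, (∫ y in Q d, Kp (z i) y * g y) =
        ∑ i ∈ range N, ∏ r, φ r (z i r) := sum_congr rfl fun i _ => hf _ (hz i)
    rw [e1, setIntegral_congr_fun measurableSet_Icc hf]

end Pool.Agent.H36.KS
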