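import Pool.Agent.H36.KS.Disc

set_option autoImplicit false

/-!
# [H36 KS Window] windows after an index: mean of the drops, L2 norm of the increment of the discrepancy function
-/

namespace Pool.Agent.H36.KS

open Finset MeasureTheory
open Pool.Agent.H47.KZ (Kp hh IsKritzinger)

/-- centred kernel -/
noncomputable def kc {d : ℕ} (x y : Fin d → ℝ) : ℝ := Kp x y - hh x - hh y + (1 / 3) ^ d

theorem kc_comm {d : ℕ} (x y : Fin d → ℝ) : kc x y = kc y x := by
  unfold kc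
  rw [Kp_comm]
  ring

theorem drop_window {k m : ℕ} {z : ℕ → Fin (k + 1) → ℝ} (h : IsKritzinger (k + 1) m z) (i N : ℕ)
    (hi : m ≤ i) (hN : i ≤ N) :
    drop z N ≤ drop z i - 2 * ∑ l ∈ Ico i N, kc (z l) (z N) := by
  have hc : ∀ n, drop z n = (2 * ∑ j ∈ range n, hh (z j) + (1 / 2) ^ (k + 1) -
      2 * ((n : ℝ) + 1) * (1 / 3) ^ (k + 1)) - Fn z n (z n) := by
    intro n
    have hi0 : IntegrableOn (fun _ : Fin (k + 1) → ℝ => Fn z n (z n)) (Q (k + 1)) :=
      cont_int continuous_const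
    rw [drop_eq h n, integral_sub (cont_int (Fn_cont z n)) hi0, int_Fn h n]
    simp [measureReal_def, vol_Q]
  have hg := greedy h i hi (z N) (mem_cube_Q h N)
  have hs1 : ∑ j ∈ range N, hh (z j) = ∑ j ∈ range i, hh (z j) + ∑ l ∈ Ico i N, hh (z l) :=
    (sum_range_add_sum_Ico _ hN).symm
  have hs2 : ∑ j ∈ range N, Kp (z j) (z N) =
      ∑ j ∈ range i, Kp (z j) (z N) + ∑ l ∈ Ico i N, Kp (z l) (z N) :=
    (sum_range_add_sum_Ico _ hN).symm
  have hk : ∑ l ∈ Ico i N, kc (z l) (z N) = ∑ l ∈ Ico i N, Kp (z l) (z N) -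
      ∑ l ∈ Ico i N, hh (z l) - ((N : ℝ) - i) * hh (z N) + ((N : ℝ) - i) * (1 / 3) ^ (k + 1) := by
    unfold kc
    rw [sum_add_distrib, sum_sub_distrib, sum_sub_distrib]
    simp only [sum_const, Nat.card_Ico, nsmul_eq_mul]
    rw [Nat.cast_sub hN]
  rw [hc N, hc i, hk, hs1]
  unfold Fn at hg ⊢
  rw [hs2]
  linarith

theorem sum_int {d : ℕ} {z : ℕ → Fin d → ℝ} (hz : ∀ j, z j ∈ Q d) (s : Finset ℕ) (c : ℝ) :
    ∫ q in Q d, (∑ l ∈ s, ind (z l) q - c * ∏ r, q r) ^ 2 =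
      ∑ l ∈ s, ∑ j ∈ s, Kp (z l) (z j) - 2 * c * ∑ l ∈ s, hh (z l) + c ^ 2 * (1 / 3) ^ d := by
  have hfin : IsFiniteMeasure ((volume : Measure (Fin d → ℝ)).restrict (Q d)) :=
    ⟨by rw [Measure.restrict_apply_univ, vol_Q]; exact ENNReal.one_lt_top⟩
  have hm1 : ∀ i, Measurable (fun q => ind (z i) q) := fun i =>
    (ind_meas _).comp (measurable_const.prodMk measurable_id)
  have hm2 : Measurable (fun q : Fin d → ℝ => ∏ r, q r) := by fun_prop
  have hv : ∀ q ∈ Q d, |∏ r, q r| ≤ 1 := by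
    intro q hq
    rw [abs_of_nonneg (prod_nonneg fun r _ => (mem_Q hq r).1)]
    exact prod_le_one (fun r _ => (mem_Q hq r).1) fun r _ => (mem_Q hq r).2
  have hmul : ∀ {a b : (Fin d → ℝ) → ℝ}, Measurable a → Measurable b →
      (∀ q ∈ Q d, |a q| ≤ 1) → (∀ q ∈ Q d, |b q| ≤ 1) →
      IntegrableOn (fun q => a q * b q) (Q d) := by
    intro a b ha hb ha1 hb1
    refine Integrable.mono' (integrable_const (1 : ℝ)) (ha.mul hb).aestronglyMeasurable ?_
    refine ae_restrict_of_forall_mem measurableSet_Icc fun q hq => ?_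
    rw [Real.norm_eq_abs, abs_mul]
    exact mul_le_one₀ (ha1 q hq) (abs_nonneg _) (hb1 q hq)
  have i1 : ∀ l j, IntegrableOn (fun q => ind (z l) q * ind (z j) q) (Q d) := fun l j =>
    hmul (hm1 l) (hm1 j) (fun q _ => ind_abs _ _) fun q _ => ind_abs _ _
  have i2 : ∀ l, IntegrableOn (fun q => (∏ r, q r) * ind (z l) q) (Q d) := fun l =>
    hmul hm2 (hm1 l) hv fun q _ => ind_abs _ _
  have i3 : IntegrableOn (fun q : Fin d → ℝ => (∏ r, q r) * ∏ r, q r) (Q d) := hmul hm2 hm2 hv hv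
  have s1 : IntegrableOn (fun q => ∑ l ∈ s, ∑ j ∈ s, ind (z l) q * ind (z j) q) (Q d) :=
    integrable_finsetSum _ fun l _ => integrable_finsetSum _ fun j _ => i1 l j
  have s2 : IntegrableOn (fun q => ∑ l ∈ s, (∏ r, q r) * ind (z l) q) (Q d) :=
    integrable_finsetSum _ fun l _ => i2 l
  have e : ∀ q : Fin d → ℝ, (∑ l ∈ s, ind (z l) q - c * ∏ r, q r) ^ 2 =
      ∑ l ∈ s, ∑ j ∈ s, ind (z l) q * ind (z j) q -
        2 * c * ∑ l ∈ s, (∏ r, q r) * ind (z l) q + c ^ 2 * ((∏ r, q r) * ∏ r, q r) := by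
    intro q
    rw [← sum_mul_sum, ← mul_sum]
    ring
  have e3 : ∫ q in Q d, (∏ r, q r) * ∏ r, q r = (1 / 3) ^ d := by
    have e' : ∀ q : Fin d → ℝ, (∏ r, q r) * ∏ r, q r = ∏ r, (q r * q r) := fun q =>
      prod_mul_distrib.symm
    rw [integral_congr_ae (Filter.Eventually.of_forall e'), int_prod (fun _ t => t * t)]
    have : ∫ t in (0 : ℝ)..1, t * t = 1 / 3 := by
      have h2 : ∀ t : ℝ, t * t = t ^ 2 := fun t => by ring
      simp only [h2]
      rw [integral_pow]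
      norm_num
    rw [this, prod_const, card_univ, Fintype.card_fin]
  have s12 : IntegrableOn (fun q => ∑ l ∈ s, ∑ j ∈ s, ind (z l) q * ind (z j) q -
        2 * c * ∑ l ∈ s, (∏ r, q r) * ind (z l) q) (Q d) := s1.sub (s2.const_mul _)
  rw [integral_congr_ae (Filter.Eventually.of_forall e), integral_add s12 (i3.const_mul _),
    integral_sub s1 (s2.const_mul _), integral_const_mul, integral_const_mul, e3,
    integral_finsetSum _ fun l _ => integrable_finsetSum _ fun j _ => i1 l j,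
    integral_finsetSum _ fun l _ => i2 l]
  congr 2
  · refine sum_congr rfl fun l _ => ?_
    rw [integral_finsetSum _ fun j _ => i1 l j]
    exact sum_congr rfl fun j _ => int_ind_ind (hz l) (hz j)
  · congr 1
    exact sum_congr rfl fun l _ => int_vol_ind (hz l)

theorem kc_self_le {k : ℕ} {x : Fin (k + 1) → ℝ} (hx : x ∈ Q (k + 1)) : kc x x ≤ 1 := by
  have h1 := sum_int (z := fun _ => x) (fun _ => hx) {0} 1
  have h2 : ∫ q in Q (k + 1), (∑ l ∈ ({0} : Finset ℕ), ind ((fun _ => x) l) q -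
      1 * ∏ r, q r) ^ 2 ≤ 1 := by
    have h3 := norm_setIntegral_le_of_norm_le_const (μ := volume) (s := Q (k + 1)) (C := 1)
      (f := fun q => (∑ l ∈ ({0} : Finset ℕ), ind ((fun _ : ℕ => x) l) q - 1 * ∏ r, q r) ^ 2)
      (by rw [vol_Q]; exact ENNReal.one_lt_top)
      (fun q hq => by
        rw [sum_singleton, Real.norm_eq_abs, abs_of_nonneg (sq_nonneg _), sq_le_one_iff_abs_le_one]
        have a1 : 0 ≤ ind x q ∧ ind x q ≤ 1 := by
          rw [ind_eq]
          split_ifs <;> simp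
        have a2 : 0 ≤ ∏ r, q r := prod_nonneg fun r _ => (mem_Q hq r).1
        have a3 : ∏ r, q r ≤ 1 := prod_le_one (fun r _ => (mem_Q hq r).1) fun r _ => (mem_Q hq r).2
        exact abs_le.2 ⟨by linarith [a1.1], by linarith [a1.2]⟩)
    rw [measureReal_def, vol_Q] at h3
    exact (le_abs_self _).trans (by simpa using h3)
  rw [h1] at h2
  simp only [sum_singleton] at h2
  unfold kc
  linarith

/-- sum of the drops over a window plus the energy of the window -/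
theorem window {k m : ℕ} {z : ℕ → Fin (k + 1) → ℝ} (h : IsKritzinger (k + 1) m z) (i : ℕ)
    (hi : m ≤ i) (N : ℕ) (hN : i ≤ N) :
    ∑ n ∈ Ico i N, drop z n + ∑ l ∈ Ico i N, ∑ j ∈ Ico i N, kc (z l) (z j) ≤
      ((N : ℝ) - i) * (drop z i + 1) := by
  induction N, hN using Nat.le_induction with
  | base => simp
  | succ N hN ih =>
    rw [sum_Ico_succ_top hN, sum_Ico_succ_top hN]
    have e : ∑ l ∈ Ico i N, ∑ j ∈ Ico i (N + 1), kc (z l) (z j) =
        ∑ l ∈ Ico i N, ∑ j ∈ Ico i N, kc (z l) (z j) + ∑ l ∈ Ico i N, kc (z l) (z N) := by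
      rw [← sum_add_distrib]
      exact sum_congr rfl fun l _ => sum_Ico_succ_top hN _
    have e2 : ∑ j ∈ Ico i (N + 1), kc (z N) (z j) =
        ∑ l ∈ Ico i N, kc (z l) (z N) + kc (z N) (z N) := by
      rw [sum_Ico_succ_top hN]
      congr 1
      exact sum_congr rfl fun l _ => kc_comm _ _
    rw [e, e2]
    have h1 := drop_window h i N hi hN
    have h2 := kc_self_le (mem_cube_Q h N)
    push_cast
    linarith

/-- energy of a window as an integral -/
theorem energy_eq {k m : ℕ} {z : ℕ → Fin (k + 1) → ℝ} (h : IsKritzinger (k + 1) m z) (i N : ℕ)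
    (hN : i ≤ N) :
    ∑ l ∈ Ico i N, ∑ j ∈ Ico i N, kc (z l) (z j) =
      ∫ q in Q (k + 1), (∑ l ∈ Ico i N, ind (z l) q - ((N : ℝ) - i) * ∏ r, q r) ^ 2 := by
  rw [sum_int (mem_cube_Q h) (Ico i N) ((N : ℝ) - i)]
  unfold kc
  simp only [sum_add_distrib, sum_sub_distrib, sum_const, Nat.card_Ico, nsmul_eq_mul, ← mul_sum]
  rw [Nat.cast_sub hN]
  ring

theorem energy_nonneg {k m : ℕ} {z : ℕ → Fin (k + 1) → ℝ} (h : IsKritzinger (k + 1) m z) (i N : ℕ)
    (hN : i ≤ N) : 0 ≤ ∑ l ∈ Ico i N, ∑ j ∈ Ico i N, kc (z l) (z j) := by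
  rw [energy_eq h i N hN]
  exact integral_nonneg fun q => sq_nonneg _

end Pool.Agent.H36.KS
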